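import Mathlib

set_option autoImplicit false

/-! Clans, the orbits of `GL_p × GL_q` on the flag variety (as subsets of `GL_n`, by pulling back
along `GL_n → GL_n / B`), Zariski closures, tangent spaces, singular points, components. -/

namespace Pool.Agent.Q35.CL

/-- The letters of a clan. -/
inductive Letter
  | plus : Letter
  | minus : Letter
  | num : ℕ → Letter
  deriving DecidableEq

/-- A `(p,q)`-clan: a string of length `p + q` of signs and natural numbers, every number that
occurs occurring exactly twice, with `#(+) - #(-) = p - q`. -/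
structure Clan (p q : ℕ) where
  /-- the string -/
  c : Fin (p + q) → Letter
  twice : ∀ i k, c i = Letter.num k → ∃! j, j ≠ i ∧ c j = Letter.num k
  balance : (((Finset.univ.filter (fun i => c i = Letter.plus)).card : ℤ) -
    ((Finset.univ.filter (fun i => c i = Letter.minus)).card : ℤ)) = (p : ℤ) - (q : ℤ)

variable {p q : ℕ}

/-- The positions `i < j` form an arc. -/
def Clan.IsArc (γ : Clan p q) (i j : Fin (p + q)) : Prop :=
  i < j ∧ ∃ k, γ.c i = Letter.num k ∧ γ.c j = Letter.num k

/-- Square matrices of size `n = p + q`. -/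
abbrev Mat (p q : ℕ) : Type := Matrix (Fin (p + q)) (Fin (p + q)) ℂ

/-- Polynomials in the matrix entries. -/
abbrev Pol (p q : ℕ) : Type := MvPolynomial (Fin (p + q) × Fin (p + q)) ℂ

/-- The value of a polynomial at a matrix. -/
noncomputable def ev (f : Pol p q) (x : Mat p q) : ℂ := MvPolynomial.eval (fun s => x s.1 s.2) f

/-- The group `K = GL_p × GL_q`, block-diagonal. -/
def K (p q : ℕ) : Set (Mat p q) :=
  {k | k.det ≠ 0 ∧ ∀ i j, ¬ (i.val < p ↔ j.val < p) → k i j = 0}

/-- The Borel group of the invertible upper triangular matrices. -/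
def B (p q : ℕ) : Set (Mat p q) := {b | b.det ≠ 0 ∧ ∀ i j, j < i → b i j = 0}

/-- The entry `i` of the standard basis vector with index `r`. -/
noncomputable def unitVec (r : ℕ) (i : Fin (p + q)) : ℂ := if i.val = r then 1 else 0

/-- `g` is a base point of the orbit of the clan `γ`: for suitable labels `a i < p`, `b i < q`
(the label `a` of the positions `≠ -` is injective up to the two ends of an arc, and so is `b` on
the positions `≠ +`) its column `i` is `e_(a i)` for a sign `+`, `f_(b i)` for a sign `-`, and for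
an arc `i < j` the columns `i`, `j` are `e_(a i) + f_(b i)` and `e_(a i) - f_(b i)`; here
`e_0, …, e_(p-1), f_0, …, f_(q-1)` is the standard basis. -/
def IsBase (γ : Clan p q) (g : Mat p q) : Prop :=
  ∃ a b : Fin (p + q) → ℕ,
    (∀ i, γ.c i = Letter.plus → a i < p ∧ ∀ r, g r i = unitVec (a i) r) ∧
    (∀ i, γ.c i = Letter.minus → b i < q ∧ ∀ r, g r i = unitVec (p + b i) r) ∧
    (∀ i j, γ.IsArc i j → a i < p ∧ b i < q ∧ a j = a i ∧ b j = b i ∧
      ∀ r, g r i = unitVec (a i) r + unitVec (p + b i) r ∧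
        g r j = unitVec (a i) r - unitVec (p + b i) r) ∧
    (∀ i j, γ.c i ≠ Letter.minus → γ.c j ≠ Letter.minus → a i = a j →
      i = j ∨ γ.IsArc i j ∨ γ.IsArc j i) ∧
    (∀ i j, γ.c i ≠ Letter.plus → γ.c j ≠ Letter.plus → b i = b j →
      i = j ∨ γ.IsArc i j ∨ γ.IsArc j i)

/-- The preimage in `GL_n` of the `K`-orbit of `γ` in `GL_n / B`. -/
def orb (γ : Clan p q) : Set (Mat p q) :=
  {x | ∃ k ∈ K p q, ∃ g, IsBase γ g ∧ ∃ b ∈ B p q, x = k * g * b}

/-- The Zariski closure in `GL_n`. -/
def clo (S : Set (Mat p q)) : Set (Mat p q) :=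
  {x | x.det ≠ 0 ∧ ∀ f : Pol p q, (∀ y ∈ S, ev f y = 0) → ev f x = 0}

/-- The preimage in `GL_n` of the orbit closure `Y_γ`. -/
def Y (γ : Clan p q) : Set (Mat p q) := clo (orb γ)

/-- The Zariski tangent space at `x` of a closed subset `Z` of `GL_n`. -/
noncomputable def tan (Z : Set (Mat p q)) (x : Mat p q) : Submodule ℂ (Mat p q) where
  carrier := {v | ∀ f : Pol p q, (∀ y ∈ Z, ev f y = 0) →
    ∑ s : Fin (p + q) × Fin (p + q), v s.1 s.2 * ev (MvPolynomial.pderiv s f) x = 0}
  zero_mem' := by
    intro f _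
    simp
  add_mem' := by
    intro v w hv hw f hf
    have h1 := hv f hf
    have h2 := hw f hf
    simp only [Matrix.add_apply, add_mul, Finset.sum_add_distrib, h1, h2, add_zero]
  smul_mem' := by
    intro c v hv f hf
    have h1 := hv f hf
    simp only [Matrix.smul_apply, smul_eq_mul, mul_assoc, ← Finset.mul_sum, h1, mul_zero]

/-- The singular locus of an irreducible closed subset `Z` of `GL_n`: the points where the
dimension of the Zariski tangent space is not the smallest one. -/
def Sing (Z : Set (Mat p q)) : Set (Mat p q) :=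
  {x | x ∈ Z ∧ ∃ y ∈ Z, Module.finrank ℂ (tan Z y) < Module.finrank ℂ (tan Z x)}

/-- `C` is closed in `GL_n` and irreducible (its ideal is prime). -/
def IrredClosed (C : Set (Mat p q)) : Prop :=
  clo C = C ∧ C.Nonempty ∧ ∀ f g : Pol p q, (∀ x ∈ C, ev f x * ev g x = 0) →
    (∀ x ∈ C, ev f x = 0) ∨ (∀ x ∈ C, ev g x = 0)

/-- `C` is an irreducible component of `S`. -/
def IsComponent (C S : Set (Mat p q)) : Prop :=
  IrredClosed C ∧ C ⊆ S ∧ ∀ D, IrredClosed D → C ⊆ D → D ⊆ S → D = C

end Pool.Agent.Q35.CL
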