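import Mathlib
import Pool.Agent.Q35.CL.Def

set_option autoImplicit false

/-! General lemmas on closures, curves and tangent spaces. -/

namespace Pool.Agent.Q35.CL

open MvPolynomial Matrix

variable {p q : ℕ}

/-- matrices of polynomials in one variable -/
abbrev PMat (p q : ℕ) : Type := Matrix (Fin (p + q)) (Fin (p + q)) (Polynomial ℂ)

/-- evaluation of a polynomial matrix -/
noncomputable def at' (c : PMat p q) (t : ℂ) : Mat p q := c.map (Polynomial.evalRingHom t)

/-- the polynomial `f` along a curve -/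
noncomputable def cev (f : Pol p q) (c : PMat p q) : Polynomial ℂ :=
  aeval (fun s => c s.1 s.2) f

theorem eval_cev (f : Pol p q) (c : PMat p q) (t : ℂ) :
    (cev f c).eval t = ev f (at' c t) := by
  unfold cev ev at'
  have h : (Polynomial.evalRingHom t) (aeval (fun s => c s.1 s.2) f) =
      eval₂Hom ((Polynomial.evalRingHom t).comp (algebraMap ℂ (Polynomial ℂ)))
        (fun i => (Polynomial.evalRingHom t) (c i.1 i.2)) f := map_aeval _ _ _
  rw [Polynomial.coe_evalRingHom] at h
  rw [h]
  have h2 : (Polynomial.evalRingHom t).comp (algebraMap ℂ (Polynomial ℂ)) = RingHom.id ℂ := by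
    ext1 z
    simp
  rw [h2]
  rfl

/-- affine curves -/
noncomputable def line (x v : Mat p q) : PMat p q :=
  fun i j => Polynomial.C (x i j) + Polynomial.X * Polynomial.C (v i j)

theorem at_line (x v : Mat p q) (t : ℂ) : at' (line x v) t = x + t • v := by
  ext i j
  simp [at', line]
  ring

theorem deriv_line (f : Pol p q) (x v : Mat p q) :
    (Polynomial.derivative (cev f (line x v))).eval 0 =
      ∑ s : Fin (p + q) × Fin (p + q), v s.1 s.2 * ev (pderiv s f) x := by
  have h0 : ∀ f : Pol p q, (cev f (line x v)).eval 0 = ev f x := by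
    intro f
    rw [eval_cev, at_line, zero_smul, add_zero]
  induction f using MvPolynomial.induction_on with
  | C a => simp [cev, ev]
  | add f g hf hg =>
    have e1 : cev (f + g) (line x v) = cev f (line x v) + cev g (line x v) := map_add _ _ _
    rw [e1, Polynomial.derivative_add, Polynomial.eval_add, hf, hg, ← Finset.sum_add_distrib]
    refine Finset.sum_congr rfl (fun s _ => ?_)
    rw [map_add, ← mul_add]
    congr 1
    exact (map_add (eval _) _ _).symm
  | mul_X f s hf =>
    have e1 : cev (f * X s) (line x v) = cev f (line x v) * line x v s.1 s.2 := by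
      unfold cev
      rw [map_mul, aeval_X]
    rw [e1, Polynomial.derivative_mul, Polynomial.eval_add, Polynomial.eval_mul,
      Polynomial.eval_mul, hf, h0]
    have e2 : (line x v s.1 s.2).eval 0 = x s.1 s.2 := by simp [line]
    have e3 : (Polynomial.derivative (line x v s.1 s.2)).eval 0 = v s.1 s.2 := by simp [line]
    rw [e2, e3]
    have e4 : ∀ r : Fin (p + q) × Fin (p + q), ev (pderiv r (f * X s)) x =
        ev (pderiv r f) x * x s.1 s.2 + ev f x * (if r = s then 1 else 0) := by
      intro r
      unfold ev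
      rw [pderiv_mul, map_add, map_mul, map_mul, eval_X, pderiv_X]
      congr 2
      by_cases h : r = s
      · subst h
        simp
      · rw [if_neg h, Pi.single_eq_of_ne' h]
        simp
    simp only [e4, mul_add]
    rw [Finset.sum_add_distrib, Finset.sum_mul]
    congr 1
    · refine Finset.sum_congr rfl (fun r _ => ?_)
      ring
    · rw [Finset.sum_eq_single s]
      · simp
        ring
      · intro r _ hr
        rw [if_neg hr]
        ring
      · intro h
        exact absurd (Finset.mem_univ _) h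

theorem cev_eq_zero (f : Pol p q) (c : PMat p q) (F : Set ℂ) (hF : F.Finite)
    (h : ∀ t ∉ F, ev f (at' c t) = 0) : cev f c = 0 := by
  apply Polynomial.eq_zero_of_infinite_isRoot
  refine Set.Infinite.mono ?_ (hF.infinite_compl)
  intro t ht
  change (cev f c).eval t = 0
  rw [eval_cev]
  exact h t ht

theorem mem_tan_of_line (Z : Set (Mat p q)) (x v : Mat p q) (F : Set ℂ) (hF : F.Finite)
    (h : ∀ t ∉ F, x + t • v ∈ Z) : v ∈ tan Z x := by
  intro f hf
  rw [← deriv_line, cev_eq_zero f (line x v) F hF]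
  · simp
  · intro t ht
    rw [at_line]
    exact hf _ (h t ht)

theorem mem_clo_of_curve (S : Set (Mat p q)) (c : PMat p q) (F : Set ℂ) (hF : F.Finite)
    (t0 : ℂ) (hx : (at' c t0).det ≠ 0) (h : ∀ t ∉ F, at' c t ∈ clo S) : at' c t0 ∈ clo S := by
  refine ⟨hx, fun f hf => ?_⟩
  rw [← eval_cev, cev_eq_zero f c F hF]
  · simp
  · intro t ht
    exact (h t ht).2 f hf

theorem mem_clo_of_line (S : Set (Mat p q)) (x v : Mat p q) (F : Set ℂ) (hF : F.Finite)
    (hx : x.det ≠ 0) (h : ∀ t ∉ F, x + t • v ∈ clo S) : x ∈ clo S := by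
  have := mem_clo_of_curve S (line x v) F hF 0 (by rw [at_line]; simpa using hx) (by
    intro t ht
    rw [at_line]
    exact h t ht)
  rw [at_line] at this
  simpa using this

theorem subset_clo (S : Set (Mat p q)) (hS : ∀ x ∈ S, x.det ≠ 0) : S ⊆ clo S :=
  fun x hx => ⟨hS x hx, fun _ hf => hf x hx⟩

theorem clo_clo (S : Set (Mat p q)) : clo (clo S) = clo S := by
  apply Set.Subset.antisymm
  · intro x hx
    exact ⟨hx.1, fun f hf => hx.2 f (fun y hy => hy.2 f hf)⟩
  · exact fun x hx => ⟨hx.1, fun _ hf => hf x hx⟩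

/-- the polynomial `f (l x r)` -/
noncomputable def tr (l r : Mat p q) (f : Pol p q) : Pol p q :=
  aeval (fun s => (l.map MvPolynomial.C * mvPolynomialX _ _ ℂ * r.map MvPolynomial.C :
    Matrix _ _ (Pol p q)) s.1 s.2) f

theorem ev_tr (l r : Mat p q) (f : Pol p q) (x : Mat p q) : ev (tr l r f) x = ev f (l * x * r) := by
  unfold ev tr
  have h : (eval (fun s => x s.1 s.2)) (aeval (fun s => (l.map MvPolynomial.C *
      mvPolynomialX _ _ ℂ * r.map MvPolynomial.C : Matrix _ _ (Pol p q)) s.1 s.2) f) =
      eval₂Hom ((eval (fun s => x s.1 s.2)).comp (algebraMap ℂ (Pol p q)))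
        (fun i => (eval (fun s => x s.1 s.2)) ((l.map MvPolynomial.C * mvPolynomialX _ _ ℂ *
          r.map MvPolynomial.C : Matrix _ _ (Pol p q)) i.1 i.2)) f := map_aeval _ _ _
  rw [h]
  have h2 : (eval (fun s : Fin (p + q) × Fin (p + q) => x s.1 s.2)).comp
      (algebraMap ℂ (Pol p q)) = RingHom.id ℂ := by
    ext1 z
    simp
  rw [h2]
  have h3 : (l.map MvPolynomial.C * mvPolynomialX _ _ ℂ * r.map MvPolynomial.C :
      Matrix _ _ (Pol p q)).map (eval (fun s : Fin (p + q) × Fin (p + q) => x s.1 s.2)) =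
      l * x * r := by
    rw [Matrix.map_mul, Matrix.map_mul, Matrix.map_map, Matrix.map_map]
    have a1 : l.map ((eval fun s : Fin (p + q) × Fin (p + q) => x s.1 s.2) ∘
        (MvPolynomial.C : ℂ →+* Pol p q)) = l := by
      ext i j
      simp
    have a2 : r.map ((eval fun s : Fin (p + q) × Fin (p + q) => x s.1 s.2) ∘
        (MvPolynomial.C : ℂ →+* Pol p q)) = r := by
      ext i j
      simp
    have a3 : (mvPolynomialX (Fin (p + q)) (Fin (p + q)) ℂ).map
        (eval fun s : Fin (p + q) × Fin (p + q) => x s.1 s.2) = x := by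
      ext i j
      simp
    rw [a1, a2, a3]
  have h4 : (fun i : Fin (p + q) × Fin (p + q) => (eval (fun s => x s.1 s.2))
      ((l.map MvPolynomial.C * mvPolynomialX _ _ ℂ *
          r.map MvPolynomial.C : Matrix _ _ (Pol p q)) i.1 i.2)) =
      fun i => (l * x * r) i.1 i.2 := by
    funext i
    rw [← h3]
    rfl
  rw [h4]
  rfl

theorem clo_map (l r : Mat p q) (hl : l.det ≠ 0) (hr : r.det ≠ 0) (S T : Set (Mat p q))
    (h : ∀ x ∈ S, l * x * r ∈ clo T) : ∀ x ∈ clo S, l * x * r ∈ clo T := by
  intro x hx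
  refine ⟨?_, fun f hf => ?_⟩
  · rw [det_mul, det_mul]
    exact mul_ne_zero (mul_ne_zero hl hx.1) hr
  · rw [← ev_tr]
    apply hx.2
    intro y hy
    rw [ev_tr]
    exact (h y hy).2 f hf

theorem tan_map (Z : Set (Mat p q)) (l r : Mat p q) (h : ∀ x ∈ Z, l * x * r ∈ Z) (x v : Mat p q)
    (hv : v ∈ tan Z x) : l * v * r ∈ tan Z (l * x * r) := by
  intro f hf
  rw [← deriv_line]
  have h1 := hv (tr l r f) (fun y hy => by rw [ev_tr]; exact hf _ (h y hy))
  rw [← deriv_line] at h1
  have h2 : cev f (line (l * x * r) (l * v * r)) = cev (tr l r f) (line x v) := by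
    apply Polynomial.funext
    intro t
    rw [eval_cev, eval_cev, at_line, at_line, ev_tr]
    congr 1
    rw [mul_add, add_mul, mul_smul_comm, smul_mul_assoc]
  rw [h2]
  exact h1

theorem finrank_tan_le (Z : Set (Mat p q)) (l r : Mat p q) (hl : l.det ≠ 0) (hr : r.det ≠ 0)
    (h : ∀ x ∈ Z, l * x * r ∈ Z) (x : Mat p q) :
    Module.finrank ℂ (tan Z x) ≤ Module.finrank ℂ (tan Z (l * x * r)) := by
  let F : tan Z x →ₗ[ℂ] tan Z (l * x * r) :=
    { toFun := fun v => ⟨l * v.1 * r, tan_map Z l r h x v.1 v.2⟩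
      map_add' := by
        intro v w
        apply Subtype.ext
        change l * (v.1 + w.1) * r = l * v.1 * r + l * w.1 * r
        rw [mul_add, add_mul]
      map_smul' := by
        intro c v
        apply Subtype.ext
        change l * (c • v.1) * r = c • (l * v.1 * r)
        rw [mul_smul_comm, smul_mul_assoc] }
  apply LinearMap.finrank_le_finrank_of_injective (f := F)
  intro v w hvw
  have h1 : l * v.1 * r = l * w.1 * r := congrArg Subtype.val hvw
  have hl' : IsUnit l.det := isUnit_iff_ne_zero.2 hl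
  have hr' : IsUnit r.det := isUnit_iff_ne_zero.2 hr
  apply Subtype.ext
  have h2 : l⁻¹ * (l * v.1 * r) * r⁻¹ = l⁻¹ * (l * w.1 * r) * r⁻¹ := by rw [h1]
  simpa [mul_assoc, nonsing_inv_mul_cancel_left _ _ hl', mul_nonsing_inv _ hr'] using h2

theorem finite_det (x v : Mat p q) (hx : x.det ≠ 0) : {t : ℂ | (x + t • v).det = 0}.Finite := by
  have h1 : (line x v).det ≠ 0 := by
    intro h
    apply hx
    have h2 : (at' (line x v) 0).det = 0 := by
      unfold at'
      rw [← RingHom.mapMatrix_apply, ← RingHom.map_det, h, map_zero]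
    rw [at_line] at h2
    simpa using h2
  refine Set.Finite.subset ((line x v).det.roots.toFinset.finite_toSet) ?_
  intro t ht
  have h2 : (at' (line x v) t).det = 0 := by
    rw [at_line]
    exact ht
  unfold at' at h2
  rw [← RingHom.mapMatrix_apply, ← RingHom.map_det] at h2
  simp only [Finset.mem_coe, Multiset.mem_toFinset]
  rw [Polynomial.mem_roots h1]
  exact h2

end Pool.Agent.Q35.CL
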