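import Mathlib
import Pool.Agent.Q35.CL.Gen

set_option autoImplicit false

/-! Stability of orbit closures under parabolic subgroups. -/

namespace Pool.Agent.Q35.CL

open MvPolynomial Matrix

variable {p q : ℕ}

/-- right stability -/
def RS (Z : Set (Mat p q)) (m : Mat p q) : Prop := ∀ z ∈ Z, z * m ∈ Z

theorem RS.mul {Z : Set (Mat p q)} {m m' : Mat p q} (h : RS Z m) (h' : RS Z m') :
    RS Z (m * m') := fun z hz => by
  rw [← mul_assoc]
  exact h' _ (h z hz)

/-- the double coset of `g` -/
def OO (g : Mat p q) : Set (Mat p q) := {x | ∃ k ∈ K p q, ∃ b ∈ B p q, x = k * g * b}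

theorem K_mul {k k' : Mat p q} (hk : k ∈ K p q) (hk' : k' ∈ K p q) : k * k' ∈ K p q := by
  refine ⟨?_, ?_⟩
  · rw [det_mul]
    exact mul_ne_zero hk.1 hk'.1
  · intro i j hij
    rw [mul_apply]
    refine Finset.sum_eq_zero (fun a _ => ?_)
    by_cases h1 : i.val < p ↔ a.val < p
    · rw [hk'.2 a j (fun h2 => hij (h1.trans h2)), mul_zero]
    · rw [hk.2 i a h1, zero_mul]

theorem B_mul {b b' : Mat p q} (hb : b ∈ B p q) (hb' : b' ∈ B p q) : b * b' ∈ B p q := by
  refine ⟨?_, ?_⟩
  · rw [det_mul]
    exact mul_ne_zero hb.1 hb'.1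
  · intro i j hij
    rw [mul_apply]
    refine Finset.sum_eq_zero (fun a _ => ?_)
    by_cases h1 : a < i
    · rw [hb.2 i a h1, zero_mul]
    · rw [hb'.2 a j (lt_of_lt_of_le hij (not_lt.1 h1)), mul_zero]

theorem one_K : (1 : Mat p q) ∈ K p q := by
  refine ⟨by simp, ?_⟩
  intro i j hij
  rw [one_apply_ne]
  rintro rfl
  exact hij Iff.rfl

theorem one_B : (1 : Mat p q) ∈ B p q := by
  refine ⟨by simp, ?_⟩
  intro i j hij
  rw [one_apply_ne (ne_of_gt hij)]

theorem OO_K {g x k : Mat p q} (hk : k ∈ K p q) (hx : x ∈ OO g) : k * x ∈ OO g := by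
  obtain ⟨k', hk', b, hb, rfl⟩ := hx
  exact ⟨k * k', K_mul hk hk', b, hb, by simp only [mul_assoc]⟩

theorem OO_B {g x b : Mat p q} (hb : b ∈ B p q) (hx : x ∈ OO g) : x * b ∈ OO g := by
  obtain ⟨k', hk', b', hb', rfl⟩ := hx
  exact ⟨k', hk', b' * b, B_mul hb' hb, by simp only [mul_assoc]⟩

theorem OO_det {g x : Mat p q} (hg : g.det ≠ 0) (hx : x ∈ OO g) : x.det ≠ 0 := by
  obtain ⟨k', hk', b', hb', rfl⟩ := hx
  rw [det_mul, det_mul]
  exact mul_ne_zero (mul_ne_zero hk'.1 hg) hb'.1

theorem cloOO_K {g x k : Mat p q} (hk : k ∈ K p q) (hg : g.det ≠ 0) (hx : x ∈ clo (OO g)) :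
    k * x ∈ clo (OO g) := by
  have h := clo_map k 1 hk.1 (by simp) (OO g) (OO g) (fun y hy => by
    rw [mul_one]
    exact subset_clo _ (fun _ => OO_det hg) (OO_K hk hy)) x hx
  rwa [mul_one] at h

theorem cloOO_B {g x b : Mat p q} (hb : b ∈ B p q) (hg : g.det ≠ 0) (hx : x ∈ clo (OO g)) :
    x * b ∈ clo (OO g) := by
  have h := clo_map 1 b (by simp) hb.1 (OO g) (OO g) (fun y hy => by
    rw [one_mul]
    exact subset_clo _ (fun _ => OO_det hg) (OO_B hb hy)) x hx
  rwa [one_mul] at h

theorem mul_transvection_apply (x : Mat p q) (i j : Fin (p + q)) (c : ℂ)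
    (r s : Fin (p + q)) : (x * transvection i j c) r s = x r s + if s = j then c * x r i else 0 := by
  by_cases h : s = j
  · subst h
    rw [mul_transvection_apply_same, if_pos rfl]
  · rw [mul_transvection_apply_of_ne _ _ _ _ h, if_neg h, add_zero]

theorem transvection_mul_apply (x : Mat p q) (i j : Fin (p + q)) (c : ℂ)
    (r s : Fin (p + q)) : (transvection i j c * x) r s = x r s + if r = i then c * x j s else 0 := by
  by_cases h : r = i
  · subst h
    rw [transvection_mul_apply_same, if_pos rfl]
  · rw [transvection_mul_apply_of_ne _ _ _ _ h, if_neg h, add_zero]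

/-- the elementary step: `b u(c) = u(c') b''` -/
theorem swap_B {b : Mat p q} (hb : b ∈ B p q) (i j : Fin (p + q)) (hij : i.val = j.val + 1)
    (c : ℂ) (hp : b j j + c * b j i ≠ 0) :
    ∃ c' : ℂ, ∃ b'' ∈ B p q, b * transvection i j c = transvection i j c' * b'' := by
  have hne : i ≠ j := fun h => by rw [h] at hij; omega
  refine ⟨c * b i i / (b j j + c * b j i), transvection i j (-(c * b i i / (b j j + c * b j i))) *
    (b * transvection i j c), ⟨?_, ?_⟩, ?_⟩
  · rw [det_mul, det_mul, det_transvection_of_ne _ _ hne, det_transvection_of_ne _ _ hne]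
    simpa using hb.1
  · intro r s hsr
    rw [transvection_mul_apply, mul_transvection_apply, mul_transvection_apply]
    have hlt : j < i := by
      rw [Fin.lt_def]
      omega
    by_cases hr : r = i
    · subst hr
      rw [if_pos rfl]
      by_cases hs : s = j
      · subst hs
        rw [if_pos rfl, if_pos rfl, hb.2 _ _ hsr]
        field_simp
        ring
      · rw [if_neg hs, if_neg hs, hb.2 _ _ hsr]
        have h2 : s < j := by
          rw [Fin.lt_def] at hsr ⊢
          have : s.val ≠ j.val := fun h => hs (Fin.ext h)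
          omega
        rw [hb.2 _ _ h2]
        ring
    · rw [if_neg hr, hb.2 _ _ hsr]
      by_cases hs : s = j
      · subst hs
        have h2 : i < r := by
          rw [Fin.lt_def] at hsr ⊢
          have : r.val ≠ i.val := fun h => hr (Fin.ext h)
          omega
        rw [if_pos rfl, hb.2 _ _ h2]
        ring
      · rw [if_neg hs]
        ring
  · rw [← mul_assoc, transvection_mul_transvection_same _ _ hne, add_neg_cancel,
      transvection_zero, one_mul]

theorem rs_transvection (g : Mat p q) (hg : g.det ≠ 0) (i j : Fin (p + q))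
    (hij : i.val = j.val + 1)
    (h : ∀ c : ℂ, ∃ k ∈ K p q, ∃ b ∈ B p q, g * transvection i j c = k * g * b) (c : ℂ) :
    RS (clo (OO g)) (transvection i j c) := by
  have hne : i ≠ j := fun h => by rw [h] at hij; omega
  have key : ∀ k ∈ K p q, ∀ b ∈ B p q, ∀ c : ℂ, b j j + c * b j i ≠ 0 →
      k * g * b * transvection i j c ∈ OO g := by
    intro k hk b hb c hc
    obtain ⟨c', b'', hb'', he⟩ := swap_B hb i j hij c hc
    obtain ⟨k1, hk1, b1, hb1, he1⟩ := h c'
    refine ⟨k * k1, K_mul hk hk1, b1 * b'', B_mul hb1 hb'', ?_⟩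
    calc k * g * b * transvection i j c = k * g * (b * transvection i j c) := by
          simp only [mul_assoc]
      _ = k * (g * transvection i j c') * b'' := by rw [he]; simp only [mul_assoc]
      _ = k * k1 * g * (b1 * b'') := by rw [he1]; simp only [mul_assoc]
  have hdet : (transvection i j c).det ≠ 0 := by
    rw [det_transvection_of_ne _ _ hne]
    exact one_ne_zero
  intro z hz
  have := clo_map 1 (transvection i j c) (by simp) hdet (OO g) (OO g) ?_ z hz
  · rwa [one_mul] at this
  rintro x ⟨k, hk, b, hb, rfl⟩
  rw [one_mul]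
  have hx : (k * g * b).det ≠ 0 := OO_det hg ⟨k, hk, b, hb, rfl⟩
  by_cases hc : b j j + c * b j i = 0
  · have hbji : b j i ≠ 0 := by
      intro h0
      rw [h0, mul_zero, add_zero] at hc
      apply hb.1
      have hbt : b.BlockTriangular id := fun a b' hab => hb.2 _ _ hab
      rw [det_of_isUpperTriangular hbt]
      exact Finset.prod_eq_zero (Finset.mem_univ j) hc
    refine mem_clo_of_line _ _ (k * g * b * single i j 1) {0} (Set.finite_singleton 0) ?_ ?_
    · rw [det_mul]
      exact mul_ne_zero hx hdet
    · intro t ht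
      have e1 : k * g * b * transvection i j c + t • (k * g * b * single i j 1) =
          k * g * b * transvection i j (c + t) := by
        rw [← mul_smul_comm, ← mul_add, transvection, transvection, smul_single, smul_eq_mul,
          mul_one, add_assoc, single_add]
      rw [e1]
      apply subset_clo _ (fun _ => OO_det hg)
      apply key k hk b hb
      have e2 : b j j + (c + t) * b j i = (b j j + c * b j i) + t * b j i := by ring
      rw [e2, hc, zero_add]
      exact mul_ne_zero ht hbji
  · exact subset_clo _ (fun _ => OO_det hg) (key k hk b hb c hc)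

/-- matrices with prescribed zeros below the diagonal -/
def Pat (W : Fin (p + q) → Fin (p + q) → Prop) (m : Mat p q) : Prop :=
  m.det ≠ 0 ∧ ∀ i j, j < i → ¬ W i j → m i j = 0

theorem elim (S : Set (Mat p q)) (W : Fin (p + q) → Fin (p + q) → Prop) (i j : Fin (p + q))
    (hji : j < i) (hW : ∀ a, a < j → ¬ W j a) (hW2 : ∀ a, j < a → a < i → W i a)
    (hB : ∀ m, Pat W m → RS (clo S) m) (ht : ∀ c, RS (clo S) (transvection i j c)) :
    ∀ m, Pat (fun r s => W r s ∨ (r = i ∧ s = j)) m → RS (clo S) m := by
  have key : ∀ m : Mat p q, Pat (fun r s => W r s ∨ (r = i ∧ s = j)) m → m j j ≠ 0 →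
      RS (clo S) m := by
    intro m hm hp
    have hne : i ≠ j := ne_of_gt hji
    have h1 : Pat W (transvection i j (-(m i j / m j j)) * m) := by
      refine ⟨?_, ?_⟩
      · rw [det_mul, det_transvection_of_ne _ _ hne, one_mul]
        exact hm.1
      · intro r s hsr hWrs
        rw [transvection_mul_apply]
        by_cases hr : r = i
        · subst hr
          rw [if_pos rfl]
          by_cases hs : s = j
          · subst hs
            field_simp
            ring
          · have h2 : m r s = 0 := hm.2 r s hsr (by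
              rintro (h | h)
              · exact hWrs h
              · exact hs h.2)
            rcases lt_trichotomy s j with h3 | h3 | h3
            · have h4 : m j s = 0 := hm.2 j s h3 (by
                rintro (h | h)
                · exact hW s h3 h
                · exact hs h.2)
              rw [h2, h4]
              ring
            · exact absurd h3 hs
            · exact absurd (hW2 s h3 hsr) hWrs
        · rw [if_neg hr, add_zero]
          exact hm.2 r s hsr (by
            rintro (h | h)
            · exact hWrs h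
            · exact hr h.1)
    have h2 : m = transvection i j (m i j / m j j) *
        (transvection i j (-(m i j / m j j)) * m) := by
      rw [← mul_assoc, transvection_mul_transvection_same _ _ hne, add_neg_cancel,
        transvection_zero, one_mul]
    rw [h2]
    exact (ht _).mul (hB _ h1)
  intro m hm
  by_cases hp : m j j = 0
  · intro z hz
    have hzm : (z * m).det ≠ 0 := by
      rw [det_mul]
      exact mul_ne_zero hz.1 hm.1
    refine mem_clo_of_line S _ (z * single j j 1)
      ({t : ℂ | (m + t • single j j 1).det = 0} ∪ {0})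
      ((finite_det m _ hm.1).union (Set.finite_singleton 0)) hzm ?_
    intro t ht
    simp only [Set.mem_union, Set.mem_ofPred_eq, Set.mem_singleton_iff, not_or] at ht
    rw [← mul_smul_comm, ← mul_add]
    refine key _ ⟨ht.1, ?_⟩ ?_ z hz
    · intro r s hsr hWrs
      rw [Matrix.add_apply, hm.2 r s hsr hWrs, Matrix.smul_apply, single_apply]
      have : ¬ (j = r ∧ j = s) := by
        rintro ⟨h1, h2⟩
        rw [← h1, ← h2] at hsr
        exact lt_irrefl _ hsr
      rw [if_neg this]
      simp
    · rw [Matrix.add_apply, hp, Matrix.smul_apply, single_apply_same]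
      simpa using ht.2
  · exact key m hm hp

end Pool.Agent.Q35.CL
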