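import Mathlib
import Pool.Agent.Q35.CL.Stab

set_option autoImplicit false

/-! Ranks and minors, completions of independent families. -/

namespace Pool.Agent.Q35.CL

open Matrix

theorem exists_cols {a b r : ℕ} (M : Matrix (Fin a) (Fin b) ℂ) (h : r ≤ M.rank) :
    ∃ c : Fin r → Fin b, LinearIndependent ℂ (M.submatrix id c).col := by
  obtain ⟨f, hf, _, hli⟩ := Submodule.exists_fun_fin_finrank_span_eq ℂ (Set.range M.col)
  rw [rank_eq_finrank_span_cols] at h
  choose c hc using hf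
  refine ⟨c ∘ Fin.castLE h, ?_⟩
  have e : (M.submatrix id (c ∘ Fin.castLE h)).col = f ∘ Fin.castLE h := by
    funext i
    rw [Function.comp_apply, ← hc]
    rfl
  rw [e]
  exact hli.comp _ (Fin.castLE_injective h)

theorem rank_le_two_of_minors {a b : ℕ} (M : Matrix (Fin a) (Fin b) ℂ)
    (h : ∀ (r : Fin 3 → Fin a) (c : Fin 3 → Fin b), (M.submatrix r c).det = 0) : M.rank ≤ 2 := by
  by_contra hcon
  obtain ⟨c, hc⟩ := exists_cols (r := 3) M (by omega)
  have h1 : ((M.submatrix id c)ᵀ).rank = 3 := by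
    have := LinearIndependent.rank_matrix (M := (M.submatrix id c)ᵀ) (by
      rw [row_transpose]
      exact hc)
    simpa using this
  obtain ⟨r, hr⟩ := exists_cols (r := 3) (M.submatrix id c)ᵀ h1.ge
  rw [linearIndependent_cols_iff_isUnit, isUnit_iff_isUnit_det] at hr
  have h2 : ((M.submatrix id c)ᵀ.submatrix id r) = (M.submatrix r c)ᵀ := rfl
  rw [h2, det_transpose, h r c] at hr
  exact not_isUnit_zero hr

theorem minors_of_rank_le_two {a b : ℕ} (M : Matrix (Fin a) (Fin b) ℂ) (h : M.rank ≤ 2)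
    (r : Fin 3 → Fin a) (c : Fin 3 → Fin b) : (M.submatrix r c).det = 0 := by
  by_contra hcon
  have h1 : (M.submatrix r c).rank = 3 := by
    have := rank_of_isUnit (M.submatrix r c) ((isUnit_iff_isUnit_det _).2 (isUnit_iff_ne_zero.2 hcon))
    simpa using this
  have h2 := rank_submatrix_le M r c
  omega

theorem complete {n k : ℕ} (v : Fin k → Fin n → ℂ) (hv : LinearIndependent ℂ v) (m : ℕ)
    (hkm : k ≤ m) (hmn : m ≤ n) :
    ∃ w : Fin m → Fin n → ℂ, LinearIndependent ℂ w ∧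
      ∀ i : Fin k, w (Fin.castLE hkm i) = v i := by
  induction m, hkm using Nat.le_induction with
  | base => exact ⟨v, hv, fun i => rfl⟩
  | succ m hkm ih =>
    obtain ⟨w, hw, hwv⟩ := ih (by omega)
    obtain ⟨x, hx⟩ := exists_linearIndependent_snoc_of_lt_finrank (R := ℂ) hw (by simp; omega)
    refine ⟨_, hx, fun i => ?_⟩
    have e : Fin.castLE (Nat.le_succ_of_le hkm) i = Fin.castSucc (Fin.castLE hkm i) := rfl
    have e2 : (Fin.snoc w x : Fin (m + 1) → Fin n → ℂ) (Fin.castSucc (Fin.castLE hkm i)) =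
        w (Fin.castLE hkm i) := Fin.snoc_castSucc (α := fun _ => Fin n → ℂ) x w _
    exact e2.trans (hwv i)

/-- an invertible matrix with two prescribed columns -/
theorem complete_matrix {n : ℕ} (hn : 2 ≤ n) (v1 v2 : Fin n → ℂ)
    (hv : LinearIndependent ℂ ![v1, v2]) :
    ∃ M : Matrix (Fin n) (Fin n) ℂ, M.det ≠ 0 ∧ (∀ r, M r ⟨0, by omega⟩ = v1 r) ∧
      ∀ r, M r ⟨1, by omega⟩ = v2 r := by
  obtain ⟨w, hw, hwv⟩ := complete ![v1, v2] hv n hn le_rfl
  refine ⟨Matrix.of (fun i j => w j i), ?_, fun r => ?_, fun r => ?_⟩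
  · have h1 : (Matrix.of (fun i j => w j i)).col = w := rfl
    rw [← h1, linearIndependent_cols_iff_isUnit, isUnit_iff_isUnit_det] at hw
    exact hw.ne_zero
  · exact congrFun (hwv 0) r
  · exact congrFun (hwv 1) r

theorem span_pair {V : Type*} [AddCommGroup V] [Module ℂ V] [FiniteDimensional ℂ V]
    (P : Submodule ℂ V) (hP : Module.finrank ℂ P = 2) (a1 a2 : V) (h1 : a1 ∈ P) (h2 : a2 ∈ P)
    (hli : LinearIndependent ℂ ![a1, a2]) (z : V) (hz : z ∈ P) :
    ∃ α β : ℂ, z = α • a1 + β • a2 := by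
  have hs : Submodule.span ℂ (Set.range ![a1, a2]) = P := by
    apply Submodule.eq_of_le_of_finrank_eq
    · rw [Submodule.span_le]
      rintro _ ⟨i, rfl⟩
      fin_cases i
      · exact h1
      · exact h2
    · rw [finrank_span_eq_card hli, hP]
      simp
  rw [← hs] at hz
  have hr : Set.range ![a1, a2] = {a1, a2} := by
    ext y
    simp [eq_comm, or_comm]
  rw [hr, Submodule.mem_span_pair] at hz
  obtain ⟨α, β, h⟩ := hz
  exact ⟨α, β, h.symm⟩

theorem ext_pair {V : Type*} [AddCommGroup V] [Module ℂ V] [FiniteDimensional ℂ V]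
    (P : Submodule ℂ V) (hP : Module.finrank ℂ P = 2) (a : V) (ha : a ∈ P) (ha0 : a ≠ 0) :
    ∃ a2 ∈ P, LinearIndependent ℂ ![a, a2] := by
  obtain ⟨y, hy⟩ := exists_linearIndependent_pair_of_one_lt_finrank (R := ℂ) (M := P)
    (by omega) (x := ⟨a, ha⟩) (by
      intro h
      exact ha0 (congrArg Subtype.val h))
  refine ⟨y.1, y.2, ?_⟩
  have := hy.map' P.subtype (Submodule.ker_subtype P)
  have e : ⇑P.subtype ∘ ![⟨a, ha⟩, y] = ![a, y.1] := by
    funext i
    fin_cases i <;> rfl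
  rw [e] at this
  exact this

theorem exists_pair {V : Type*} [AddCommGroup V] [Module ℂ V] [FiniteDimensional ℂ V]
    (P : Submodule ℂ V) (hP : Module.finrank ℂ P = 2) :
    ∃ a1 ∈ P, ∃ a2 ∈ P, LinearIndependent ℂ ![a1, a2] := by
  have : Nontrivial P := Module.nontrivial_of_finrank_pos (R := ℂ) (by omega)
  obtain ⟨a, ha⟩ := exists_ne (0 : P)
  obtain ⟨a2, h2, hli⟩ := ext_pair P hP a.1 a.2 (fun h => ha (Subtype.ext h))
  exact ⟨a.1, a.2, a2, h2, hli⟩

end Pool.Agent.Q35.CL
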