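import Mathlib
import Pool.Agent.Q35.CL.Rk

set_option autoImplicit false

/-! The variety `R` and its decomposition into double cosets. -/

namespace Pool.Agent.Q35.CL

open Matrix

/-- rows `e`, first four columns -/
def bA (x : Mat 4 3) : Matrix (Fin 4) (Fin 4) ℂ := x.submatrix (Fin.castAdd 3) (Fin.castAdd 3)

/-- rows `f`, first four columns -/
def bC (x : Mat 4 3) : Matrix (Fin 3) (Fin 4) ℂ := x.submatrix (Fin.natAdd 4) (Fin.castAdd 3)

/-- the big variety -/
def RR : Set (Mat 4 3) := {x | x.det ≠ 0 ∧ (bA x).rank ≤ 2 ∧ (bC x).rank ≤ 2 ∧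
  ∀ i j, bC x i 0 * bC x j 1 = bC x j 0 * bC x i 1}

/-- the small variety -/
def RR0 : Set (Mat 4 3) := {x | x.det ≠ 0 ∧ (bA x).rank ≤ 2 ∧ (bC x).rank ≤ 2 ∧
  ∀ i, bC x i 0 = 0 ∧ bC x i 1 = 0}

/-- pattern of the parabolic `Q` with blocks `2, 2, 3` -/
def QQ : Set (Mat 4 3) := {m | m.det ≠ 0 ∧ ∀ r s : Fin (4 + 3),
  ((2 ≤ r.val ∧ s.val < 2) ∨ (4 ≤ r.val ∧ s.val < 4)) → m r s = 0}

/-- the positions of the columns -/
def π0 : Fin (4 + 3) → Fin (4 + 3) := ![0, 1, 4, 5, 2, 3, 6]
/-- the positions of the columns -/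
def π1 : Fin (4 + 3) → Fin (4 + 3) := ![0, 4, 1, 5, 2, 3, 6]

/-- representative -/
noncomputable def x0 : Mat 4 3 := fun r j => if r = π0 j then 1 else 0
/-- representative -/
noncomputable def x1 : Mat 4 3 := fun r j => if r = π1 j then 1 else 0
/-- representative -/
noncomputable def x2 : Mat 4 3 := fun r j => (if r = π0 j then 1 else 0) +
  (if r = 4 ∧ j = 1 then 1 else 0)

/-- block diagonal matrix -/
noncomputable def kk (M : Matrix (Fin 4) (Fin 4) ℂ) (N : Matrix (Fin 3) (Fin 3) ℂ) : Mat 4 3 :=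
  (fromBlocks M 0 0 N).submatrix finSumFinEquiv.symm finSumFinEquiv.symm

theorem kk_det (M : Matrix (Fin 4) (Fin 4) ℂ) (N : Matrix (Fin 3) (Fin 3) ℂ) :
    (kk M N).det = M.det * N.det := by
  unfold kk
  rw [det_submatrix_equiv_self, det_fromBlocks_zero₂₁]

theorem kk_apply (M : Matrix (Fin 4) (Fin 4) ℂ) (N : Matrix (Fin 3) (Fin 3) ℂ) :
    (∀ i j, kk M N (Fin.castAdd 3 i) (Fin.castAdd 3 j) = M i j) ∧
    (∀ i j, kk M N (Fin.castAdd 3 i) (Fin.natAdd 4 j) = 0) ∧
    (∀ i j, kk M N (Fin.natAdd 4 i) (Fin.castAdd 3 j) = 0) ∧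
    (∀ i j, kk M N (Fin.natAdd 4 i) (Fin.natAdd 4 j) = N i j) := by
  have e1 : ∀ i : Fin 4, finSumFinEquiv.symm (Fin.castAdd 3 i) = Sum.inl i :=
    fun i => finSumFinEquiv_symm_apply_castAdd i
  have e2 : ∀ i : Fin 3, finSumFinEquiv.symm (Fin.natAdd 4 i) = Sum.inr i :=
    fun i => finSumFinEquiv_symm_apply_natAdd i
  refine ⟨?_, ?_, ?_, ?_⟩ <;> intro i j <;> unfold kk <;> rw [submatrix_apply]
  · rw [e1, e1]
    rfl
  · rw [e1, e2]
    rfl
  · rw [e1, e2]
    rfl
  · rw [e2, e2]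
    rfl

theorem kk_K (M : Matrix (Fin 4) (Fin 4) ℂ) (N : Matrix (Fin 3) (Fin 3) ℂ) (hM : M.det ≠ 0)
    (hN : N.det ≠ 0) : kk M N ∈ K 4 3 := by
  obtain ⟨h1, h2, h3, h4⟩ := kk_apply M N
  refine ⟨by rw [kk_det]; exact mul_ne_zero hM hN, ?_⟩
  intro i j
  refine Fin.addCases (fun a => ?_) (fun a => ?_) i <;>
    refine Fin.addCases (fun b => ?_) (fun b => ?_) j
  · intro h
    simp only [Fin.val_castAdd] at h
    omega
  · intro _
    exact h2 a b
  · intro _
    exact h3 a b
  · intro h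
    simp only [Fin.val_natAdd] at h
    omega

theorem mul_x0 (k : Mat 4 3) (r j : Fin (4 + 3)) : (k * x0) r j = k r (π0 j) := by
  rw [mul_apply]
  simp [x0]

theorem mul_x1 (k : Mat 4 3) (r j : Fin (4 + 3)) : (k * x1) r j = k r (π1 j) := by
  rw [mul_apply]
  simp [x1]

theorem mul_x2 (k : Mat 4 3) (r j : Fin (4 + 3)) : (k * x2) r j = k r (π0 j) +
    if j = 1 then k r 4 else 0 := by
  rw [mul_apply]
  simp only [x2, mul_add, Finset.sum_add_distrib]
  congr 1
  · simp
  · by_cases h : j = 1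
    · simp [h]
    · simp [h]

/-- assembling the right factor -/
theorem assemble (N x : Mat 4 3) (hN : N.det ≠ 0) (hx : x.det ≠ 0)
    (h01 : ∀ j : Fin (4 + 3), j.val < 2 → ∃ a b : ℂ, ∀ r, x r j = a * N r 0 + b * N r 1)
    (h23 : ∀ j : Fin (4 + 3), 2 ≤ j.val → j.val < 4 → ∃ a b c d : ℂ, ∀ r, x r j =
      a * N r 0 + b * N r 1 + c * N r 2 + d * N r 3) : ∃ m ∈ QQ, x = N * m := by
  have key : ∀ j : Fin (4 + 3), ∃ v : Fin (4 + 3) → ℂ, (∀ r, x r j = ∑ s, N r s * v s) ∧
      ∀ s : Fin (4 + 3), ((2 ≤ s.val ∧ j.val < 2) ∨ (4 ≤ s.val ∧ j.val < 4)) → v s = 0 := by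
    intro j
    by_cases h1 : j.val < 2
    · obtain ⟨a, b, h⟩ := h01 j h1
      refine ⟨![a, b, 0, 0, 0, 0, 0], fun r => ?_, ?_⟩
      · rw [h r, Fin.sum_univ_castSucc, Fin.sum_univ_castSucc, Fin.sum_univ_castSucc,
          Fin.sum_univ_castSucc, Fin.sum_univ_castSucc, Fin.sum_univ_castSucc,
          Fin.sum_univ_castSucc]
        simp
        ring
      · intro s
        fin_cases s <;> simp
    · by_cases h2 : j.val < 4
      · obtain ⟨a, b, c, d, h⟩ := h23 j (by omega) h2
        refine ⟨![a, b, c, d, 0, 0, 0], fun r => ?_, ?_⟩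
        · rw [h r, Fin.sum_univ_castSucc, Fin.sum_univ_castSucc, Fin.sum_univ_castSucc,
            Fin.sum_univ_castSucc, Fin.sum_univ_castSucc, Fin.sum_univ_castSucc,
            Fin.sum_univ_castSucc]
          simp
          ring
        · intro s
          fin_cases s <;> simp <;> omega
      · refine ⟨fun s => (N⁻¹ * x) s j, fun r => ?_, ?_⟩
        · have h3 : N * (N⁻¹ * x) = x := by
            rw [← mul_assoc, mul_nonsing_inv _ (isUnit_iff_ne_zero.2 hN), one_mul]
          have h4 := congrFun (congrFun h3 r) j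
          rw [mul_apply] at h4
          exact h4.symm
        · intro s hs
          omega
  choose v hv1 hv2 using key
  have hm : x = N * (Matrix.of fun s j => v j s) := by
    ext r j
    rw [hv1 j r, mul_apply]
    rfl
  refine ⟨Matrix.of fun s j => v j s, ⟨?_, fun r s hrs => hv2 s r hrs⟩, hm⟩
  intro h
  apply hx
  rw [hm, det_mul, h, mul_zero]

theorem x0_det : x0.det ≠ 0 := by
  intro h
  obtain ⟨v, hv, hv0⟩ := exists_mulVec_eq_zero_iff.2 h
  apply hv
  have h1 : ∀ r, (x0 *ᵥ v) r = 0 := fun r => by rw [hv0]; rfl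
  have h2 := h1 0
  have h3 := h1 1
  have h4 := h1 2
  have h5 := h1 3
  have h6 := h1 4
  have h7 := h1 5
  have h8 := h1 6
  simp only [mulVec, dotProduct, Fin.sum_univ_castSucc, x0, π0] at h2 h3 h4 h5 h6 h7 h8
  simp at h2 h3 h4 h5 h6 h7 h8
  funext i
  fin_cases i <;> simp <;> assumption

theorem x1_det : x1.det ≠ 0 := by
  intro h
  obtain ⟨v, hv, hv0⟩ := exists_mulVec_eq_zero_iff.2 h
  apply hv
  have h1 : ∀ r, (x1 *ᵥ v) r = 0 := fun r => by rw [hv0]; rfl
  have h2 := h1 0
  have h3 := h1 1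
  have h4 := h1 2
  have h5 := h1 3
  have h6 := h1 4
  have h7 := h1 5
  have h8 := h1 6
  simp only [mulVec, dotProduct, Fin.sum_univ_castSucc, x1, π1] at h2 h3 h4 h5 h6 h7 h8
  simp at h2 h3 h4 h5 h6 h7 h8
  funext i
  fin_cases i <;> simp <;> assumption

theorem x2_det : x2.det ≠ 0 := by
  intro h
  obtain ⟨v, hv, hv0⟩ := exists_mulVec_eq_zero_iff.2 h
  apply hv
  have h1 : ∀ r, (x2 *ᵥ v) r = 0 := fun r => by rw [hv0]; rfl
  have h2 := h1 0
  have h3 := h1 1
  have h4 := h1 2
  have h5 := h1 3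
  have h6 := h1 4
  have h7 := h1 5
  have h8 := h1 6
  simp only [mulVec, dotProduct, Fin.sum_univ_castSucc, x2, π0] at h2 h3 h4 h5 h6 h7 h8
  simp at h2 h3 h4 h5 h6 h7 h8
  rw [h3, zero_add] at h6
  funext i
  fin_cases i <;> simp <;> assumption

section cls

variable (x : Mat 4 3)

theorem inj_cols (hx : x.det ≠ 0) (y : Fin 4 → ℂ) (hA : bA x *ᵥ y = 0) (hC : bC x *ᵥ y = 0) :
    y = 0 := by
  by_contra hy
  apply hx
  rw [← exists_mulVec_eq_zero_iff]
  refine ⟨Fin.append y 0, ?_, ?_⟩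
  · intro h
    apply hy
    funext i
    have := congrFun h (Fin.castAdd 3 i)
    rw [Fin.append_left] at this
    exact this
  · funext r
    rw [mulVec, dotProduct, Fin.sum_univ_add]
    simp only [Fin.append_left, Fin.append_right, Pi.zero_apply, mul_zero,
      Finset.sum_const_zero, add_zero]
    refine Fin.addCases (fun a => ?_) (fun a => ?_) r
    · exact congrFun hA a
    · exact congrFun hC a

theorem ranks (hx : x.det ≠ 0) (hA : (bA x).rank ≤ 2) (hC : (bC x).rank ≤ 2) :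
    Module.finrank ℂ (LinearMap.range (bA x).mulVecLin) = 2 ∧
    Module.finrank ℂ (LinearMap.range (bC x).mulVecLin) = 2 := by
  have h1 : Module.finrank ℂ (LinearMap.range (bA x).mulVecLin) ≤ 2 := hA
  have h2 : Module.finrank ℂ (LinearMap.range (bC x).mulVecLin) ≤ 2 := hC
  let F : (Fin 4 → ℂ) →ₗ[ℂ] (LinearMap.range (bA x).mulVecLin) ×
      (LinearMap.range (bC x).mulVecLin) :=
    LinearMap.prod (bA x).mulVecLin.rangeRestrict (bC x).mulVecLin.rangeRestrict
  have h3 := LinearMap.finrank_le_finrank_of_injective (f := F) (by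
    rw [injective_iff_map_eq_zero]
    intro y hy
    apply inj_cols x hx y
    · exact congrArg Subtype.val (congrArg Prod.fst hy)
    · exact congrArg Subtype.val (congrArg Prod.snd hy))
  rw [Module.finrank_prod] at h3
  simp only [Module.finrank_fintype_fun_eq_card, Fintype.card_fin] at h3
  omega

theorem col_mem {a b : ℕ} (M : Matrix (Fin a) (Fin b) ℂ) (j : Fin b) :
    (fun i => M i j) ∈ LinearMap.range M.mulVecLin := by
  refine ⟨Pi.single j 1, ?_⟩
  rw [mulVecLin_apply, mulVec_single_one]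
  rfl

theorem comb (M : Matrix (Fin 4) (Fin 4) ℂ) (N : Matrix (Fin 3) (Fin 3) ℂ)
    (a1 a2 : Fin 4 → ℂ) (c1 c2 : Fin 3 → ℂ) (hM0 : ∀ r, M r 0 = a1 r) (hM1 : ∀ r, M r 1 = a2 r)
    (hN0 : ∀ r, N r 0 = c1 r) (hN1 : ∀ r, N r 1 = c2 r) (z : Fin (4 + 3) → ℂ) (α β γ δ : ℂ)
    (h1 : ∀ i : Fin 4, z (Fin.castAdd 3 i) = α * a1 i + β * a2 i)
    (h2 : ∀ i : Fin 3, z (Fin.natAdd 4 i) = γ * c1 i + δ * c2 i) (r : Fin (4 + 3)) :
    z r = α * kk M N r 0 + β * kk M N r 1 + γ * kk M N r 4 + δ * kk M N r 5 := by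
  obtain ⟨k1, k2, k3, k4⟩ := kk_apply M N
  refine Fin.addCases (fun a => ?_) (fun a => ?_) r
  · have e1 : kk M N (Fin.castAdd 3 a) 0 = M a 0 := k1 a 0
    have e2 : kk M N (Fin.castAdd 3 a) 1 = M a 1 := k1 a 1
    have e3 : kk M N (Fin.castAdd 3 a) 4 = 0 := k2 a 0
    have e4 : kk M N (Fin.castAdd 3 a) 5 = 0 := k2 a 1
    rw [e1, e2, e3, e4, h1, hM0, hM1]
    ring
  · have e1 : kk M N (Fin.natAdd 4 a) 0 = 0 := k3 a 0
    have e2 : kk M N (Fin.natAdd 4 a) 1 = 0 := k3 a 1
    have e3 : kk M N (Fin.natAdd 4 a) 4 = N a 0 := k4 a 0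
    have e4 : kk M N (Fin.natAdd 4 a) 5 = N a 1 := k4 a 1
    rw [e1, e2, e3, e4, h2, hN0, hN1]
    ring

/-- coordinates of the columns `0, …, 3` -/
theorem coords (hx : x.det ≠ 0) (hA : (bA x).rank ≤ 2) (hC : (bC x).rank ≤ 2)
    (a1 a2 : Fin 4 → ℂ) (c1 c2 : Fin 3 → ℂ)
    (ha1 : a1 ∈ LinearMap.range (bA x).mulVecLin) (ha2 : a2 ∈ LinearMap.range (bA x).mulVecLin)
    (ha : LinearIndependent ℂ ![a1, a2])
    (hc1 : c1 ∈ LinearMap.range (bC x).mulVecLin) (hc2 : c2 ∈ LinearMap.range (bC x).mulVecLin)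
    (hc : LinearIndependent ℂ ![c1, c2]) (j : Fin 4) :
    ∃ α β γ δ : ℂ, (∀ i : Fin 4, x (Fin.castAdd 3 i) (Fin.castAdd 3 j) = α * a1 i + β * a2 i) ∧
      ∀ i : Fin 3, x (Fin.natAdd 4 i) (Fin.castAdd 3 j) = γ * c1 i + δ * c2 i := by
  obtain ⟨hr1, hr2⟩ := ranks x hx hA hC
  obtain ⟨α, β, h1⟩ := span_pair _ hr1 a1 a2 ha1 ha2 ha _ (col_mem (bA x) j)
  obtain ⟨γ, δ, h2⟩ := span_pair _ hr2 c1 c2 hc1 hc2 hc _ (col_mem (bC x) j)
  exact ⟨α, β, γ, δ, fun i => congrFun h1 i, fun i => congrFun h2 i⟩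

theorem cls0 (hx : x ∈ RR0) : ∃ k ∈ K 4 3, ∃ m ∈ QQ, x = k * x0 * m := by
  obtain ⟨hdet, hA, hC, hz⟩ := hx
  obtain ⟨hr1, hr2⟩ := ranks x hdet hA hC
  have hli : LinearIndependent ℂ ![(fun i => bA x i 0), (fun i => bA x i 1)] := by
    rw [LinearIndependent.pair_iff]
    intro s t hst
    have h := inj_cols x hdet ![s, t, 0, 0] (by
      funext i
      have := congrFun hst i
      simp only [Pi.add_apply, Pi.smul_apply, smul_eq_mul, Pi.zero_apply] at this
      simp only [mulVec, dotProduct, Fin.sum_univ_four]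
      simp
      linear_combination this) (by
      funext i
      simp only [mulVec, dotProduct, Fin.sum_univ_four]
      simp [(hz i).1, (hz i).2])
    exact ⟨congrFun h 0, congrFun h 1⟩
  obtain ⟨c1, hc1, c2, hc2, hc⟩ := exists_pair _ hr2
  obtain ⟨M, hM, hM0, hM1⟩ := complete_matrix (by norm_num) _ _ hli
  obtain ⟨N, hN, hN0, hN1⟩ := complete_matrix (by norm_num) _ _ hc
  have hco := coords x hdet hA hC _ _ c1 c2 (col_mem (bA x) 0) (col_mem (bA x) 1) hli hc1 hc2 hc
  have hcomb := comb M N _ _ c1 c2 hM0 hM1 hN0 hN1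
  refine ⟨kk M N, kk_K M N hM hN, ?_⟩
  have hNN : (kk M N * x0).det ≠ 0 := by
    rw [det_mul, kk_det]
    exact mul_ne_zero (mul_ne_zero hM hN) x0_det
  apply assemble _ x hNN hdet
  · intro j hj
    have hj' : j = 0 ∨ j = 1 := by
      have : j.val = 0 ∨ j.val = 1 := by omega
      rcases this with h | h
      · exact Or.inl (Fin.ext h)
      · exact Or.inr (Fin.ext h)
    rcases hj' with rfl | rfl
    · refine ⟨1, 0, fun r => ?_⟩
      have h := hcomb (fun r => x r 0) 1 0 0 0 (fun i => by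
        change bA x i 0 = _
        ring) (fun i => by
        change bC x i 0 = _
        rw [(hz i).1]
        ring) r
      rw [mul_x0, mul_x0]
      change x r 0 = 1 * kk M N r 0 + 0 * kk M N r 1
      rw [h]
      ring
    · refine ⟨0, 1, fun r => ?_⟩
      have h := hcomb (fun r => x r 1) 0 1 0 0 (fun i => by
        change bA x i 1 = _
        ring) (fun i => by
        change bC x i 1 = _
        rw [(hz i).2]
        ring) r
      rw [mul_x0, mul_x0]
      change x r 1 = 0 * kk M N r 0 + 1 * kk M N r 1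
      rw [h]
      ring
  · intro j hj2 hj4
    obtain ⟨α, β, γ, δ, h1, h2⟩ := hco ⟨j.val, hj4⟩
    refine ⟨α, β, γ, δ, fun r => ?_⟩
    have h := hcomb (fun r => x r j) α β γ δ h1 h2 r
    rw [mul_x0, mul_x0, mul_x0, mul_x0]
    exact h

theorem cls (hx : x ∈ RR) (hx0 : x ∉ RR0) :
    ∃ k ∈ K 4 3, ∃ m ∈ QQ, x = k * x1 * m ∨ x = k * x2 * m := by
  obtain ⟨hdet, hA, hC, hz⟩ := hx
  obtain ⟨hr1, hr2⟩ := ranks x hdet hA hC
  have hvec : ∃ (a a' : Fin 4 → ℂ) (c' : Fin 3 → ℂ) (p0 q0 p1 q1 : ℂ),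
      a ∈ LinearMap.range (bA x).mulVecLin ∧ a' ∈ LinearMap.range (bA x).mulVecLin ∧
      c' ∈ LinearMap.range (bC x).mulVecLin ∧ a ≠ 0 ∧ c' ≠ 0 ∧
      (∀ i, bA x i 0 = p0 * a i + q0 * a' i) ∧ (∀ i, bC x i 0 = q0 * c' i) ∧
      (∀ i, bA x i 1 = p1 * a i + q1 * a' i) ∧ (∀ i, bC x i 1 = q1 * c' i) := by
    by_cases h0 : ∀ i, bC x i 0 = 0
    · refine ⟨fun i => bA x i 0, fun i => bA x i 1, fun i => bC x i 1, 1, 0, 0, 1,
        col_mem _ 0, col_mem _ 1, col_mem _ 1, ?_, ?_, fun i => by ring,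
        fun i => by rw [h0 i]; ring, fun i => by ring, fun i => by ring⟩
      · intro h
        have := inj_cols x hdet ![1, 0, 0, 0] (by
          funext i
          have := congrFun h i
          simp only [mulVec, dotProduct, Fin.sum_univ_four]
          simpa using this) (by
          funext i
          simp only [mulVec, dotProduct, Fin.sum_univ_four]
          simp [h0 i])
        exact one_ne_zero (congrFun this 0)
      · intro h
        exact hx0 ⟨hdet, hA, hC, fun i => ⟨h0 i, congrFun h i⟩⟩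
    · push Not at h0
      obtain ⟨i0, hi0⟩ := h0
      have hl : ∀ j, bC x j 1 = bC x i0 1 / bC x i0 0 * bC x j 0 := by
        intro j
        field_simp
        linear_combination hz i0 j
      set l := bC x i0 1 / bC x i0 0 with hldef
      refine ⟨fun i => bA x i 1 - l * bA x i 0, fun i => bA x i 0, fun i => bC x i 0,
        0, 1, 1, l, ?_, col_mem _ 0, col_mem _ 0, ?_, ?_, fun i => by ring,
        fun i => by ring, fun i => by ring, fun i => hl i⟩
      · have h1 := (LinearMap.range (bA x).mulVecLin).sub_mem (col_mem (bA x) 1)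
          ((LinearMap.range (bA x).mulVecLin).smul_mem l (col_mem (bA x) 0))
        exact h1
      · intro h
        have := inj_cols x hdet ![-l, 1, 0, 0] (by
          funext i
          have := congrFun h i
          simp only [Pi.zero_apply] at this
          simp only [mulVec, dotProduct, Fin.sum_univ_four]
          simp
          linear_combination this) (by
          funext i
          simp only [mulVec, dotProduct, Fin.sum_univ_four]
          simp
          rw [hl i]
          ring)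
        exact one_ne_zero (congrFun this 1)
      · intro h
        exact hi0 (congrFun h i0)
  obtain ⟨a, a', c', p0, q0, p1, q1, ha, ha', hc', ha0, hc0, e1, e2, e3, e4⟩ := hvec
  obtain ⟨c2, hc2, hc⟩ := ext_pair _ hr2 c' hc' hc0
  obtain ⟨N, hN, hN0, hN1⟩ := complete_matrix (by norm_num) _ _ hc
  have hcases : ∀ j : Fin (4 + 3), j.val < 2 → j = 0 ∨ j = 1 := by
    intro j hj
    have : j.val = 0 ∨ j.val = 1 := by omega
    rcases this with h | h
    · exact Or.inl (Fin.ext h)
    · exact Or.inr (Fin.ext h)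
  by_cases hli : LinearIndependent ℂ ![a, a']
  · obtain ⟨M, hM, hM0, hM1⟩ := complete_matrix (by norm_num) _ _ hli
    have hco := coords x hdet hA hC a a' c' c2 ha ha' hli hc' hc2 hc
    have hcomb := comb M N a a' c' c2 hM0 hM1 hN0 hN1
    have hNN : (kk M N * x2).det ≠ 0 := by
      rw [det_mul, kk_det]
      exact mul_ne_zero (mul_ne_zero hM hN) x2_det
    have hN0' : ∀ r, (kk M N * x2) r 0 = kk M N r 0 := fun r => by
      rw [mul_x2, if_neg (by decide), add_zero]
      rfl
    have hN1' : ∀ r, (kk M N * x2) r 1 = kk M N r 1 + kk M N r 4 := fun r => by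
      rw [mul_x2, if_pos rfl]
      rfl
    have hN2' : ∀ r, (kk M N * x2) r 2 = kk M N r 4 := fun r => by
      rw [mul_x2, if_neg (by decide), add_zero]
      rfl
    have hN3' : ∀ r, (kk M N * x2) r 3 = kk M N r 5 := fun r => by
      rw [mul_x2, if_neg (by decide), add_zero]
      rfl
    obtain ⟨m, hm, hxm⟩ := assemble _ x hNN hdet (by
      intro j hj
      rcases hcases j hj with rfl | rfl
      · refine ⟨p0, q0, fun r => ?_⟩
        have h := hcomb (fun r => x r 0) p0 q0 q0 0 e1 (fun i => by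
          have := e2 i
          change bC x i 0 = _
          rw [this]
          ring) r
        rw [hN0', hN1']
        change x r 0 = _ at h
        rw [h]
        ring
      · refine ⟨p1, q1, fun r => ?_⟩
        have h := hcomb (fun r => x r 1) p1 q1 q1 0 e3 (fun i => by
          have := e4 i
          change bC x i 1 = _
          rw [this]
          ring) r
        rw [hN0', hN1']
        change x r 1 = _ at h
        rw [h]
        ring) (by
      intro j hj2 hj4
      obtain ⟨α, β, γ, δ, h1, h2⟩ := hco ⟨j.val, hj4⟩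
      refine ⟨α, β, γ - β, δ, fun r => ?_⟩
      have h := hcomb (fun r => x r j) α β γ δ h1 h2 r
      change x r j = _ at h
      rw [hN0', hN1', hN2', hN3', h]
      ring)
    exact ⟨kk M N, kk_K M N hM hN, m, hm, Or.inr hxm⟩
  · rw [LinearIndependent.pair_iff' ha0] at hli
    push Not at hli
    obtain ⟨μ, hμ⟩ := hli
    have hμ' : ∀ i, a' i = μ * a i := fun i => by
      rw [← hμ]
      rfl
    obtain ⟨a2, ha2, hla⟩ := ext_pair _ hr1 a ha ha0
    obtain ⟨M, hM, hM0, hM1⟩ := complete_matrix (by norm_num) _ _ hla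
    have hco := coords x hdet hA hC a a2 c' c2 ha ha2 hla hc' hc2 hc
    have hcomb := comb M N a a2 c' c2 hM0 hM1 hN0 hN1
    have hNN : (kk M N * x1).det ≠ 0 := by
      rw [det_mul, kk_det]
      exact mul_ne_zero (mul_ne_zero hM hN) x1_det
    have hN0' : ∀ r, (kk M N * x1) r 0 = kk M N r 0 := fun r => by
      rw [mul_x1]
      rfl
    have hN1' : ∀ r, (kk M N * x1) r 1 = kk M N r 4 := fun r => by
      rw [mul_x1]
      rfl
    have hN2' : ∀ r, (kk M N * x1) r 2 = kk M N r 1 := fun r => by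
      rw [mul_x1]
      rfl
    have hN3' : ∀ r, (kk M N * x1) r 3 = kk M N r 5 := fun r => by
      rw [mul_x1]
      rfl
    obtain ⟨m, hm, hxm⟩ := assemble _ x hNN hdet (by
      intro j hj
      rcases hcases j hj with rfl | rfl
      · refine ⟨p0 + q0 * μ, q0, fun r => ?_⟩
        have h := hcomb (fun r => x r 0) (p0 + q0 * μ) 0 q0 0 (fun i => by
          have := e1 i
          rw [hμ' i] at this
          change bA x i 0 = _
          rw [this]
          ring) (fun i => by
          have := e2 i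
          change bC x i 0 = _
          rw [this]
          ring) r
        rw [hN0', hN1']
        change x r 0 = _ at h
        rw [h]
        ring
      · refine ⟨p1 + q1 * μ, q1, fun r => ?_⟩
        have h := hcomb (fun r => x r 1) (p1 + q1 * μ) 0 q1 0 (fun i => by
          have := e3 i
          rw [hμ' i] at this
          change bA x i 1 = _
          rw [this]
          ring) (fun i => by
          have := e4 i
          change bC x i 1 = _
          rw [this]
          ring) r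
        rw [hN0', hN1']
        change x r 1 = _ at h
        rw [h]
        ring) (by
      intro j hj2 hj4
      obtain ⟨α, β, γ, δ, h1, h2⟩ := hco ⟨j.val, hj4⟩
      refine ⟨α, γ, β, δ, fun r => ?_⟩
      have h := hcomb (fun r => x r j) α β γ δ h1 h2 r
      change x r j = _ at h
      rw [hN0', hN1', hN2', hN3', h]
      ring)
    exact ⟨kk M N, kk_K M N hM hN, m, hm, Or.inl hxm⟩

end cls

end Pool.Agent.Q35.CL
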