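import Mathlib
import Pool.Agent.Q35.CL.Cls

set_option autoImplicit false

/-! Closures of the orbits. -/

namespace Pool.Agent.Q35.CL

open Matrix

theorem t64 (c : ℂ) : (transvection 6 4 c : Mat 4 3) =
    transvection 6 5 1 * transvection 5 4 c * transvection 6 5 (-1) * transvection 5 4 (-c) := by
  have h65 : (6 : Fin (4 + 3)) ≠ 5 := by decide
  have h54 : (5 : Fin (4 + 3)) ≠ 4 := by decide
  have h64 : (4 : Fin (4 + 3)) ≠ 6 := by decide
  set a : Mat 4 3 := single 6 5 1 with ha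
  set b : Mat 4 3 := single 5 4 c with hb
  have e1 : (single 6 5 (-1) : Mat 4 3) = -a := by rw [ha, single_neg]
  have e2 : (single 5 4 (-c) : Mat 4 3) = -b := by rw [hb, single_neg]
  have aa : a * a = 0 := by rw [ha]; simp [single_mul_single_of_ne]
  have bb : b * b = 0 := by rw [hb]; simp [single_mul_single_of_ne]
  have ba : b * a = 0 := by rw [ha, hb]; simp [single_mul_single_of_ne]
  have ab : a * b = single 6 4 c := by rw [ha, hb, single_mul_single_same, one_mul]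
  simp only [transvection]
  rw [e1, e2, ← ha, ← hb, ← ab]
  have h1 : (1 + a) * (1 + b) * (1 + -a) * (1 + -b) = 1 + a * b - a * a - (a * a) * b * (-1)
      - b * a - b * b + b * a * b - a * (b * a) - a * (b * b) + a * (b * a) * b := by
    noncomm_ring
  rw [h1, aa, bb, ba]
  simp

/-- the pattern of `Q` -/
def WQ (r s : Fin (4 + 3)) : Prop :=
  ((((False ∨ (r = 6 ∧ s = 5)) ∨ (r = 5 ∧ s = 4)) ∨ (r = 6 ∧ s = 4)) ∨ (r = 3 ∧ s = 2)) ∨
    (r = 1 ∧ s = 0)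

theorem QQ_pat (m : Mat 4 3) (hm : m ∈ QQ) : Pat WQ m := by
  refine ⟨hm.1, ?_⟩
  intro r s hsr hW
  apply hm.2
  revert hsr hW
  unfold WQ
  revert r s
  decide

theorem rs_QQ (g : Mat 4 3) (hg : g.det ≠ 0)
    (h10 : ∀ c : ℂ, ∃ k ∈ K 4 3, ∃ b ∈ B 4 3, g * transvection 1 0 c = k * g * b)
    (h32 : ∀ c : ℂ, ∃ k ∈ K 4 3, ∃ b ∈ B 4 3, g * transvection 3 2 c = k * g * b)
    (h54 : ∀ c : ℂ, ∃ k ∈ K 4 3, ∃ b ∈ B 4 3, g * transvection 5 4 c = k * g * b)
    (h65 : ∀ c : ℂ, ∃ k ∈ K 4 3, ∃ b ∈ B 4 3, g * transvection 6 5 c = k * g * b)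
    (m : Mat 4 3) (hm : m ∈ QQ) : RS (clo (OO g)) m := by
  have r10 := rs_transvection g hg 1 0 (by decide) h10
  have r32 := rs_transvection g hg 3 2 (by decide) h32
  have r54 := rs_transvection g hg 5 4 (by decide) h54
  have r65 := rs_transvection g hg 6 5 (by decide) h65
  have r64 : ∀ c, RS (clo (OO g)) (transvection 6 4 c) := by
    intro c
    rw [t64]
    exact (((r65 1).mul (r54 c)).mul (r65 (-1))).mul (r54 (-c))
  have e0 : ∀ m, Pat (fun _ _ => False) m → RS (clo (OO g)) m := by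
    intro m hm z hz
    exact cloOO_B ⟨hm.1, fun i j hij => hm.2 i j hij (fun h => h)⟩ hg hz
  have e1 := elim (OO g) (fun _ _ => False) 6 5 (by decide) (by decide) (by decide) e0 r65
  have e2 := elim (OO g) _ 5 4 (by decide) (by decide) (by decide) e1 r54
  have e3 := elim (OO g) _ 6 4 (by decide) (by decide) (by decide) e2 r64
  have e4 := elim (OO g) _ 3 2 (by decide) (by decide) (by decide) e3 r32
  have e5 := elim (OO g) _ 1 0 (by decide) (by decide) (by decide) e4 r10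
  exact e5 m (QQ_pat m hm)

theorem KxQ_sub (g : Mat 4 3) (hg : g.det ≠ 0)
    (hQ : ∀ m ∈ QQ, RS (clo (OO g)) m) (x : Mat 4 3) (hx : x ∈ clo (OO g)) (k : Mat 4 3)
    (hk : k ∈ K 4 3) (m : Mat 4 3) (hm : m ∈ QQ) : k * x * m ∈ clo (OO g) :=
  hQ m hm _ (cloOO_K hk hg hx)

theorem clo_mono {S T : Set (Mat 4 3)} (h : S ⊆ T) : clo S ⊆ clo T :=
  fun _ hx => ⟨hx.1, fun f hf => hx.2 f (fun y hy => hf y (h hy))⟩

/-! ### the minors -/

/-- the minor with rows `r` and columns `c` -/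
noncomputable def minor {a : ℕ} (r c : Fin a → Fin (4 + 3)) : Pol 4 3 :=
  ((mvPolynomialX (Fin (4 + 3)) (Fin (4 + 3)) ℂ).submatrix r c).det

theorem ev_minor {a : ℕ} (r c : Fin a → Fin (4 + 3)) (x : Mat 4 3) :
    ev (minor r c) x = (x.submatrix r c).det := by
  unfold ev minor
  rw [RingHom.map_det]
  congr 1
  ext i j
  simp

theorem clo_sub_rank {S : Set (Mat 4 3)} (hA : ∀ y ∈ S, (bA y).rank ≤ 2)
    (hC : ∀ y ∈ S, (bC y).rank ≤ 2) (x : Mat 4 3) (hx : x ∈ clo S) :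
    (bA x).rank ≤ 2 ∧ (bC x).rank ≤ 2 := by
  constructor
  · apply rank_le_two_of_minors
    intro r c
    have h := hx.2 (minor (Fin.castAdd 3 ∘ r) (Fin.castAdd 3 ∘ c)) (fun y hy => by
      rw [ev_minor]
      exact minors_of_rank_le_two (bA y) (hA y hy) r c)
    rw [ev_minor] at h
    exact h
  · apply rank_le_two_of_minors
    intro r c
    have h := hx.2 (minor (Fin.natAdd 4 ∘ r) (Fin.castAdd 3 ∘ c)) (fun y hy => by
      rw [ev_minor]
      exact minors_of_rank_le_two (bC y) (hC y hy) r c)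
    rw [ev_minor] at h
    exact h

theorem clo_sub_RR {S : Set (Mat 4 3)} (hA : ∀ y ∈ S, (bA y).rank ≤ 2)
    (hC : ∀ y ∈ S, (bC y).rank ≤ 2) (hD : ∀ y ∈ S, ∀ i j, bC y i 0 * bC y j 1 =
      bC y j 0 * bC y i 1) : clo S ⊆ RR := by
  intro x hx
  obtain ⟨h1, h2⟩ := clo_sub_rank hA hC x hx
  refine ⟨hx.1, h1, h2, ?_⟩
  intro i j
  have h := hx.2 (MvPolynomial.X (Fin.natAdd 4 i, 0) * MvPolynomial.X (Fin.natAdd 4 j, 1) -
    MvPolynomial.X (Fin.natAdd 4 j, 0) * MvPolynomial.X (Fin.natAdd 4 i, 1)) (fun y hy => by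
      unfold ev
      simp only [map_sub, map_mul, MvPolynomial.eval_X]
      exact sub_eq_zero.2 (hD y hy i j))
  unfold ev at h
  simp only [map_sub, map_mul, MvPolynomial.eval_X] at h
  exact sub_eq_zero.1 h

theorem clo_sub_RR0 {S : Set (Mat 4 3)} (hA : ∀ y ∈ S, (bA y).rank ≤ 2)
    (hC : ∀ y ∈ S, (bC y).rank ≤ 2) (hD : ∀ y ∈ S, ∀ i, bC y i 0 = 0 ∧ bC y i 1 = 0) :
    clo S ⊆ RR0 := by
  intro x hx
  obtain ⟨h1, h2⟩ := clo_sub_rank hA hC x hx
  refine ⟨hx.1, h1, h2, ?_⟩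
  intro i
  constructor
  · have h := hx.2 (MvPolynomial.X (Fin.natAdd 4 i, 0)) (fun y hy => by
      unfold ev
      rw [MvPolynomial.eval_X]
      exact (hD y hy i).1)
    unfold ev at h
    rw [MvPolynomial.eval_X] at h
    exact h
  · have h := hx.2 (MvPolynomial.X (Fin.natAdd 4 i, 1)) (fun y hy => by
      unfold ev
      rw [MvPolynomial.eval_X]
      exact (hD y hy i).2)
    unfold ev at h
    rw [MvPolynomial.eval_X] at h
    exact h

/-! ### stability of the conditions -/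

theorem bA_K (k x : Mat 4 3) (hk : k ∈ K 4 3) :
    bA (k * x) = k.submatrix (Fin.castAdd 3) (Fin.castAdd 3) * bA x := by
  ext i j
  simp only [bA, submatrix_apply, mul_apply]
  rw [Fin.sum_univ_add]
  have : ∀ a : Fin 3, k (Fin.castAdd 3 i) (Fin.natAdd 4 a) = 0 := fun a => hk.2 _ _ (by
    simp only [Fin.val_castAdd, Fin.val_natAdd]
    omega)
  simp [this]

theorem bC_K (k x : Mat 4 3) (hk : k ∈ K 4 3) :
    bC (k * x) = k.submatrix (Fin.natAdd 4) (Fin.natAdd 4) * bC x := by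
  ext i j
  simp only [bC, submatrix_apply, mul_apply]
  rw [Fin.sum_univ_add]
  have : ∀ a : Fin 4, k (Fin.natAdd 4 i) (Fin.castAdd 3 a) = 0 := fun a => hk.2 _ _ (by
    simp only [Fin.val_castAdd, Fin.val_natAdd]
    omega)
  simp [this]

theorem bA_Q (x m : Mat 4 3) (hm : m ∈ QQ) :
    bA (x * m) = bA x * m.submatrix (Fin.castAdd 3) (Fin.castAdd 3) := by
  ext i j
  simp only [bA, submatrix_apply, mul_apply]
  rw [Fin.sum_univ_add]
  have : ∀ a : Fin 3, m (Fin.natAdd 4 a) (Fin.castAdd 3 j) = 0 := fun a => hm.2 _ _ (by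
    simp only [Fin.val_castAdd, Fin.val_natAdd]
    omega)
  simp [this]

theorem bC_Q (x m : Mat 4 3) (hm : m ∈ QQ) :
    bC (x * m) = bC x * m.submatrix (Fin.castAdd 3) (Fin.castAdd 3) := by
  ext i j
  simp only [bC, submatrix_apply, mul_apply]
  rw [Fin.sum_univ_add]
  have : ∀ a : Fin 3, m (Fin.natAdd 4 a) (Fin.castAdd 3 j) = 0 := fun a => hm.2 _ _ (by
    simp only [Fin.val_castAdd, Fin.val_natAdd]
    omega)
  simp [this]

theorem uw_iff (C0 C1 : Fin 3 → ℂ) : (∀ i j, C0 i * C1 j = C0 j * C1 i) ↔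
    ∃ (u : Fin 3 → ℂ) (s t : ℂ), (∀ i, C0 i = s * u i) ∧ ∀ i, C1 i = t * u i := by
  constructor
  · intro h
    by_cases h0 : ∀ i, C0 i = 0
    · exact ⟨C1, 0, 1, fun i => by rw [h0 i]; ring, fun i => by ring⟩
    · push Not at h0
      obtain ⟨i0, hi0⟩ := h0
      refine ⟨C0, 1, C1 i0 / C0 i0, fun i => by ring, fun i => ?_⟩
      field_simp
      linear_combination h i0 i
  · rintro ⟨u, s, t, h0, h1⟩ i j
    rw [h0, h0, h1, h1]
    ring

theorem bCQ01 (x m : Mat 4 3) (hm : m ∈ QQ) (i : Fin 3) :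
    bC (x * m) i 0 = bC x i 0 * m 0 0 + bC x i 1 * m 1 0 ∧
    bC (x * m) i 1 = bC x i 0 * m 0 1 + bC x i 1 * m 1 1 := by
  rw [bC_Q x m hm]
  have z1 : m 2 0 = 0 := hm.2 _ _ (by decide)
  have z2 : m 3 0 = 0 := hm.2 _ _ (by decide)
  have z3 : m 2 1 = 0 := hm.2 _ _ (by decide)
  have z4 : m 3 1 = 0 := hm.2 _ _ (by decide)
  constructor
  · rw [mul_apply, Fin.sum_univ_four]
    change bC x i 0 * m 0 0 + bC x i 1 * m 1 0 + bC x i 2 * m 2 0 + bC x i 3 * m 3 0 = _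
    rw [z1, z2]
    ring
  · rw [mul_apply, Fin.sum_univ_four]
    change bC x i 0 * m 0 1 + bC x i 1 * m 1 1 + bC x i 2 * m 2 1 + bC x i 3 * m 3 1 = _
    rw [z3, z4]
    ring

theorem B_sub_QQ {b : Mat 4 3} (hb : b ∈ B 4 3) : b ∈ QQ := by
  refine ⟨hb.1, fun r s h => hb.2 r s ?_⟩
  rw [Fin.lt_def]
  omega

theorem rank_KQ (k x m : Mat 4 3) (hk : k ∈ K 4 3) (hm : m ∈ QQ) (hA : (bA x).rank ≤ 2)
    (hC : (bC x).rank ≤ 2) : (bA (k * x * m)).rank ≤ 2 ∧ (bC (k * x * m)).rank ≤ 2 := by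
  constructor
  · rw [bA_Q _ _ hm, bA_K _ _ hk]
    exact ((rank_mul_le_left _ _).trans (rank_mul_le_right _ _)).trans hA
  · rw [bC_Q _ _ hm, bC_K _ _ hk]
    exact ((rank_mul_le_left _ _).trans (rank_mul_le_right _ _)).trans hC

theorem D_KQ (k x m : Mat 4 3) (hk : k ∈ K 4 3) (hm : m ∈ QQ)
    (hD : ∀ i j, bC x i 0 * bC x j 1 = bC x j 0 * bC x i 1) :
    ∀ i j, bC (k * x * m) i 0 * bC (k * x * m) j 1 = bC (k * x * m) j 0 * bC (k * x * m) i 1 := by
  have h1 := (uw_iff (fun i => bC x i 0) (fun i => bC x i 1)).1 hD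
  obtain ⟨u, s, t, h0, h1⟩ := h1
  have h2 : ∀ i, bC (k * x) i 0 = s * (k.submatrix (Fin.natAdd 4) (Fin.natAdd 4) *ᵥ u) i := by
    intro i
    rw [bC_K _ _ hk, mul_apply, mulVec, dotProduct, Finset.mul_sum]
    refine Finset.sum_congr rfl (fun a _ => ?_)
    rw [show bC x a 0 = s * u a from h0 a]
    ring
  have h3 : ∀ i, bC (k * x) i 1 = t * (k.submatrix (Fin.natAdd 4) (Fin.natAdd 4) *ᵥ u) i := by
    intro i
    rw [bC_K _ _ hk, mul_apply, mulVec, dotProduct, Finset.mul_sum]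
    refine Finset.sum_congr rfl (fun a _ => ?_)
    rw [show bC x a 1 = t * u a from h1 a]
    ring
  intro i j
  rw [(bCQ01 (k * x) m hm i).1, (bCQ01 (k * x) m hm i).2, (bCQ01 (k * x) m hm j).1,
    (bCQ01 (k * x) m hm j).2, h2, h2, h3, h3]
  ring

theorem D0_KQ (k x m : Mat 4 3) (hk : k ∈ K 4 3) (hm : m ∈ QQ)
    (hD : ∀ i, bC x i 0 = 0 ∧ bC x i 1 = 0) :
    ∀ i, bC (k * x * m) i 0 = 0 ∧ bC (k * x * m) i 1 = 0 := by
  have h2 : ∀ i, bC (k * x) i 0 = 0 := by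
    intro i
    rw [bC_K _ _ hk, mul_apply]
    exact Finset.sum_eq_zero (fun a _ => by rw [(hD a).1, mul_zero])
  have h3 : ∀ i, bC (k * x) i 1 = 0 := by
    intro i
    rw [bC_K _ _ hk, mul_apply]
    exact Finset.sum_eq_zero (fun a _ => by rw [(hD a).2, mul_zero])
  intro i
  rw [(bCQ01 (k * x) m hm i).1, (bCQ01 (k * x) m hm i).2, h2, h3]
  constructor <;> ring

theorem RR_KQ (k x m : Mat 4 3) (hk : k ∈ K 4 3) (hm : m ∈ QQ) (hx : x ∈ RR) :
    k * x * m ∈ RR := by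
  obtain ⟨h1, h2⟩ := rank_KQ k x m hk hm hx.2.1 hx.2.2.1
  refine ⟨?_, h1, h2, D_KQ k x m hk hm hx.2.2.2⟩
  rw [det_mul, det_mul]
  exact mul_ne_zero (mul_ne_zero hk.1 hx.1) hm.1

theorem RR0_sub_RR : RR0 ⊆ RR := by
  intro x hx
  refine ⟨hx.1, hx.2.1, hx.2.2.1, fun i j => ?_⟩
  rw [(hx.2.2.2 i).1, (hx.2.2.2 j).1]
  ring

end Pool.Agent.Q35.CL
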