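import Mathlib
import Pool.Agent.Q35.CL.Clo

set_option autoImplicit false

/-! The two clans and their orbit closures. -/

namespace Pool.Agent.Q35.CL

open Matrix Letter

/-- the string `1 + - 1 2 + 2` -/
def cγ : Fin (4 + 3) → Letter := ![num 1, plus, minus, num 1, num 2, plus, num 2]

/-- the string `+ + - - 1 + 1` -/
def cα : Fin (4 + 3) → Letter := ![plus, plus, minus, minus, num 1, plus, num 1]

/-- the clan `1 + - 1 2 + 2` -/
def γ0 : Clan 4 3 where
  c := cγ
  twice := by
    intro i k h
    fin_cases i <;> simp [cγ] at h <;> subst h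
    · exact ⟨3, by decide, by decide⟩
    · exact ⟨0, by decide, by decide⟩
    · exact ⟨6, by decide, by decide⟩
    · exact ⟨4, by decide, by decide⟩
  balance := by decide

/-- the clan `+ + - - 1 + 1` -/
def α0 : Clan 4 3 where
  c := cα
  twice := by
    intro i k h
    fin_cases i <;> simp [cα] at h <;> subst h
    · exact ⟨6, by decide, by decide⟩
    · exact ⟨4, by decide, by decide⟩
  balance := by decide

theorem arc_γ (i j : Fin (4 + 3)) : γ0.IsArc i j ↔ (i = 0 ∧ j = 3) ∨ (i = 4 ∧ j = 6) := by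
  unfold Clan.IsArc
  change (i < j ∧ ∃ k, cγ i = num k ∧ cγ j = num k) ↔ _
  constructor
  · rintro ⟨h, k, h1, h2⟩
    have h3 : cγ i = cγ j := h1.trans h2.symm
    have h4 : cγ i ≠ plus ∧ cγ i ≠ minus := by
      rw [h1]
      exact ⟨fun h => (by cases h), fun h => (by cases h)⟩
    clear h1 h2
    revert i j
    decide
  · rintro (⟨rfl, rfl⟩ | ⟨rfl, rfl⟩)
    · exact ⟨by decide, 1, by decide, by decide⟩
    · exact ⟨by decide, 2, by decide, by decide⟩

theorem arc_α (i j : Fin (4 + 3)) : α0.IsArc i j ↔ (i = 4 ∧ j = 6) := by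
  unfold Clan.IsArc
  change (i < j ∧ ∃ k, cα i = num k ∧ cα j = num k) ↔ _
  constructor
  · rintro ⟨h, k, h1, h2⟩
    have h3 : cα i = cα j := h1.trans h2.symm
    have h4 : cα i ≠ plus ∧ cα i ≠ minus := by
      rw [h1]
      exact ⟨fun h => (by cases h), fun h => (by cases h)⟩
    clear h1 h2
    revert i j
    decide
  · rintro ⟨rfl, rfl⟩
    exact ⟨by decide, 1, by decide, by decide⟩

/-- a base point of the orbit of `γ` -/
noncomputable def gγ : Mat 4 3 := Matrix.of ![
  ![0, 1, 0, 0, 0, 0, 0],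
  ![1, 0, 0, 1, 0, 0, 0],
  ![0, 0, 0, 0, 1, 0, 1],
  ![0, 0, 0, 0, 0, 1, 0],
  ![1, 0, 0, -1, 0, 0, 0],
  ![0, 0, 1, 0, 0, 0, 0],
  ![0, 0, 0, 0, 1, 0, -1]]

/-- a base point of the orbit of `α` -/
noncomputable def gα : Mat 4 3 := Matrix.of ![
  ![1, 0, 0, 0, 0, 0, 0],
  ![0, 1, 0, 0, 0, 0, 0],
  ![0, 0, 0, 0, 1, 0, 1],
  ![0, 0, 0, 0, 0, 1, 0],
  ![0, 0, 1, 0, 0, 0, 0],
  ![0, 0, 0, 1, 0, 0, 0],
  ![0, 0, 0, 0, 1, 0, -1]]

theorem gγ_det : gγ.det ≠ 0 := by
  intro h
  obtain ⟨v, hv, hv0⟩ := exists_mulVec_eq_zero_iff.2 h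
  apply hv
  have h1 : ∀ r, (gγ *ᵥ v) r = 0 := fun r => by rw [hv0]; rfl
  have h2 := h1 0
  have h3 := h1 1
  have h4 := h1 2
  have h5 := h1 3
  have h6 := h1 4
  have h7 := h1 5
  have h8 := h1 6
  simp only [mulVec, dotProduct, Fin.sum_univ_castSucc, gγ] at h2 h3 h4 h5 h6 h7 h8
  simp at h2 h3 h4 h5 h6 h7 h8
  funext i
  fin_cases i <;> simp
  · linear_combination (h3 + h6) / 2
  · exact h2
  · exact h7
  · linear_combination (h3 - h6) / 2
  · linear_combination (h4 + h8) / 2
  · exact h5
  · linear_combination (h4 - h8) / 2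

theorem gα_det : gα.det ≠ 0 := by
  intro h
  obtain ⟨v, hv, hv0⟩ := exists_mulVec_eq_zero_iff.2 h
  apply hv
  have h1 : ∀ r, (gα *ᵥ v) r = 0 := fun r => by rw [hv0]; rfl
  have h2 := h1 0
  have h3 := h1 1
  have h4 := h1 2
  have h5 := h1 3
  have h6 := h1 4
  have h7 := h1 5
  have h8 := h1 6
  simp only [mulVec, dotProduct, Fin.sum_univ_castSucc, gα] at h2 h3 h4 h5 h6 h7 h8
  simp at h2 h3 h4 h5 h6 h7 h8
  funext i
  fin_cases i <;> simp
  · exact h2
  · exact h3
  · exact h6
  · exact h7
  · linear_combination (h4 + h8) / 2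
  · exact h5
  · linear_combination (h4 - h8) / 2

theorem base_γ : IsBase γ0 gγ := by
  refine ⟨![1, 0, 0, 1, 2, 3, 2], ![0, 0, 1, 0, 2, 0, 2], ?_, ?_, ?_, ?_, ?_⟩
  · intro i h
    change cγ i = plus at h
    have hi : i = 1 ∨ i = 5 := by
      revert i
      decide
    rcases hi with rfl | rfl
    · refine ⟨by decide, fun r => ?_⟩
      fin_cases r <;> simp [gγ, unitVec]
    · refine ⟨by decide, fun r => ?_⟩
      fin_cases r <;> simp [gγ, unitVec]
  · intro i h
    change cγ i = minus at h
    have hi : i = 2 := by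
      revert i
      decide
    subst hi
    refine ⟨by decide, fun r => ?_⟩
    fin_cases r <;> simp [gγ, unitVec]
  · intro i j h
    rcases (arc_γ i j).1 h with ⟨rfl, rfl⟩ | ⟨rfl, rfl⟩
    · refine ⟨by decide, by decide, by decide, by decide, fun r => ?_⟩
      fin_cases r <;> simp [gγ, unitVec]
    · refine ⟨by decide, by decide, by decide, by decide, fun r => ?_⟩
      fin_cases r <;> simp [gγ, unitVec]
  · intro i j hi hj hab
    change cγ i ≠ minus at hi
    change cγ j ≠ minus at hj
    rw [arc_γ, arc_γ]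
    revert i j
    decide
  · intro i j hi hj hab
    change cγ i ≠ plus at hi
    change cγ j ≠ plus at hj
    rw [arc_γ, arc_γ]
    revert i j
    decide

theorem base_α : IsBase α0 gα := by
  refine ⟨![0, 1, 0, 0, 2, 3, 2], ![0, 0, 0, 1, 2, 0, 2], ?_, ?_, ?_, ?_, ?_⟩
  · intro i h
    change cα i = plus at h
    have hi : i = 0 ∨ i = 1 ∨ i = 5 := by
      revert i
      decide
    rcases hi with rfl | rfl | rfl
    · refine ⟨by decide, fun r => ?_⟩
      fin_cases r <;> simp [gα, unitVec]
    · refine ⟨by decide, fun r => ?_⟩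
      fin_cases r <;> simp [gα, unitVec]
    · refine ⟨by decide, fun r => ?_⟩
      fin_cases r <;> simp [gα, unitVec]
  · intro i h
    change cα i = minus at h
    have hi : i = 2 ∨ i = 3 := by
      revert i
      decide
    rcases hi with rfl | rfl
    · refine ⟨by decide, fun r => ?_⟩
      fin_cases r <;> simp [gα, unitVec]
    · refine ⟨by decide, fun r => ?_⟩
      fin_cases r <;> simp [gα, unitVec]
  · intro i j h
    obtain ⟨rfl, rfl⟩ := (arc_α i j).1 h
    refine ⟨by decide, by decide, by decide, by decide, fun r => ?_⟩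
    fin_cases r <;> simp [gα, unitVec]
  · intro i j hi hj hab
    change cα i ≠ minus at hi
    change cα j ≠ minus at hj
    rw [arc_α, arc_α]
    revert i j
    decide
  · intro i j hi hj hab
    change cα i ≠ plus at hi
    change cα j ≠ plus at hj
    rw [arc_α, arc_α]
    revert i j
    decide

/-- an elementary matrix in `K` -/
theorem tr_K (i j : Fin (4 + 3)) (hij : i ≠ j) (h : i.val < 4 ↔ j.val < 4) (c : ℂ) :
    (transvection i j c : Mat 4 3) ∈ K 4 3 := by
  refine ⟨by rw [det_transvection_of_ne _ _ hij]; exact one_ne_zero, ?_⟩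
  intro r s hrs
  rw [transvection, Matrix.add_apply, one_apply, single_apply]
  have h1 : r ≠ s := by
    rintro rfl
    exact hrs Iff.rfl
  have h2 : ¬ (i = r ∧ j = s) := by
    rintro ⟨rfl, rfl⟩
    exact hrs h
  rw [if_neg h1, if_neg h2, add_zero]

/-- an elementary matrix in `B` -/
theorem tr_B (i j : Fin (4 + 3)) (hij : i < j) (c : ℂ) :
    (transvection i j c : Mat 4 3) ∈ B 4 3 := by
  refine ⟨by rw [det_transvection_of_ne _ _ (ne_of_lt hij)]; exact one_ne_zero, ?_⟩
  intro r s hrs
  rw [transvection, Matrix.add_apply, one_apply, single_apply]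
  have h1 : r ≠ s := (ne_of_lt hrs).symm
  have h2 : ¬ (i = r ∧ j = s) := by
    rintro ⟨rfl, rfl⟩
    exact absurd hij (not_lt.2 (le_of_lt hrs))
  rw [if_neg h1, if_neg h2, add_zero]

theorem gγ_QQ (m : Mat 4 3) (hm : m ∈ QQ) : RS (clo (OO gγ)) m := by
  apply rs_QQ gγ gγ_det _ _ _ _ m hm
  · intro c
    refine ⟨transvection 0 1 c, tr_K 0 1 (by decide) (by decide) c,
      transvection 1 3 (-c), tr_B 1 3 (by decide) _, ?_⟩
    ext r s
    rw [mul_transvection_apply, mul_transvection_apply, transvection_mul_apply,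
      transvection_mul_apply]
    fin_cases r <;> fin_cases s <;> simp [gγ]
  · intro c
    refine ⟨transvection 4 5 (-(2 * c)), tr_K 4 5 (by decide) (by decide) _,
      transvection 0 2 c, tr_B 0 2 (by decide) _, ?_⟩
    ext r s
    rw [mul_transvection_apply, mul_transvection_apply, transvection_mul_apply,
      transvection_mul_apply]
    fin_cases r <;> fin_cases s <;> simp [gγ]
    ring
  · intro c
    refine ⟨transvection 3 2 c, tr_K 3 2 (by decide) (by decide) _,
      transvection 5 6 (-c), tr_B 5 6 (by decide) _, ?_⟩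
    ext r s
    rw [mul_transvection_apply, mul_transvection_apply, transvection_mul_apply,
      transvection_mul_apply]
    fin_cases r <;> fin_cases s <;> simp [gγ]
  · intro c
    refine ⟨transvection 2 3 (2 * c), tr_K 2 3 (by decide) (by decide) _,
      transvection 4 5 (-c), tr_B 4 5 (by decide) _, ?_⟩
    ext r s
    rw [mul_transvection_apply, mul_transvection_apply, transvection_mul_apply,
      transvection_mul_apply]
    fin_cases r <;> fin_cases s <;> simp [gγ]
    ring

theorem gα_QQ (m : Mat 4 3) (hm : m ∈ QQ) : RS (clo (OO gα)) m := by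
  apply rs_QQ gα gα_det _ _ _ _ m hm
  · intro c
    refine ⟨transvection 1 0 c, tr_K 1 0 (by decide) (by decide) c, 1, one_B, ?_⟩
    rw [mul_one]
    ext r s
    rw [mul_transvection_apply, transvection_mul_apply]
    fin_cases r <;> fin_cases s <;> simp [gα]
  · intro c
    refine ⟨transvection 5 4 c, tr_K 5 4 (by decide) (by decide) _, 1, one_B, ?_⟩
    rw [mul_one]
    ext r s
    rw [mul_transvection_apply, transvection_mul_apply]
    fin_cases r <;> fin_cases s <;> simp [gα]
  · intro c
    refine ⟨transvection 3 2 c, tr_K 3 2 (by decide) (by decide) _,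
      transvection 5 6 (-c), tr_B 5 6 (by decide) _, ?_⟩
    ext r s
    rw [mul_transvection_apply, mul_transvection_apply, transvection_mul_apply,
      transvection_mul_apply]
    fin_cases r <;> fin_cases s <;> simp [gα]
  · intro c
    refine ⟨transvection 2 3 (2 * c), tr_K 2 3 (by decide) (by decide) _,
      transvection 4 5 (-c), tr_B 4 5 (by decide) _, ?_⟩
    ext r s
    rw [mul_transvection_apply, mul_transvection_apply, transvection_mul_apply,
      transvection_mul_apply]
    fin_cases r <;> fin_cases s <;> simp [gα]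
    ring

end Pool.Agent.Q35.CL
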