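import Mathlib
import Pool.Agent.Q35.CL.Base

set_option autoImplicit false

/-! The orbit closures are `RR` and `RR0`. -/

namespace Pool.Agent.Q35.CL

open Matrix Letter

theorem rk_cols {a : ℕ} (M : Matrix (Fin a) (Fin 4) ℂ) (j1 j2 : Fin 4) (hne : j1 ≠ j2)
    (h : ∀ i j, j ≠ j1 → j ≠ j2 → M i j = 0) : M.rank ≤ 2 := by
  have e : M = (Matrix.of fun i (k : Fin 2) => if k = 0 then M i j1 else M i j2) *
      (Matrix.of fun (k : Fin 2) j => if k = 0 then (if j = j1 then (1 : ℂ) else 0) else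
        (if j = j2 then 1 else 0)) := by
    ext i j
    rw [mul_apply, Fin.sum_univ_two]
    simp only [of_apply, if_true, Fin.isValue, one_ne_zero, if_false]
    by_cases h1 : j = j1
    · subst h1
      rw [if_pos rfl, if_neg hne]
      ring
    · by_cases h2 : j = j2
      · subst h2
        rw [if_pos rfl, if_neg h1]
        ring
      · rw [if_neg h1, if_neg h2, h i j h1 h2]
        ring
  rw [e]
  exact (rank_mul_le_left _ _).trans (rank_le_width _)

theorem rk_rows {a : ℕ} (M : Matrix (Fin a) (Fin 4) ℂ) (i1 i2 : Fin a) (hne : i1 ≠ i2)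
    (h : ∀ i j, i ≠ i1 → i ≠ i2 → M i j = 0) : M.rank ≤ 2 := by
  have e : M = (Matrix.of fun i (k : Fin 2) => if k = 0 then (if i = i1 then (1 : ℂ) else 0) else
        (if i = i2 then 1 else 0)) *
      (Matrix.of fun (k : Fin 2) j => if k = 0 then M i1 j else M i2 j) := by
    ext i j
    rw [mul_apply, Fin.sum_univ_two]
    simp only [of_apply, if_true, Fin.isValue, one_ne_zero, if_false]
    by_cases h1 : i = i1
    · subst h1
      rw [if_pos rfl, if_neg hne]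
      ring
    · by_cases h2 : i = i2
      · subst h2
        rw [if_pos rfl, if_neg h1]
        ring
      · rw [if_neg h1, if_neg h2, h i j h1 h2]
        ring
  rw [e]
  exact (rank_mul_le_left _ _).trans (rank_le_width _)

theorem rk_fact {a : ℕ} (M : Matrix (Fin a) (Fin 4) ℂ) (u w : Fin a → ℂ) (p q : Fin 4 → ℂ)
    (h : ∀ i j, M i j = u i * p j + w i * q j) : M.rank ≤ 2 := by
  have e : M = (Matrix.of fun i (k : Fin 2) => if k = 0 then u i else w i) *
      (Matrix.of fun (k : Fin 2) j => if k = 0 then p j else q j) := by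
    ext i j
    rw [mul_apply, Fin.sum_univ_two]
    simp only [of_apply, if_true, Fin.isValue, one_ne_zero, if_false]
    exact h i j
  rw [e]
  exact (rank_mul_le_left _ _).trans (rank_le_width _)

theorem unit_e (n : ℕ) (hn : n < 4) (i : Fin 3) :
    (unitVec n (Fin.natAdd 4 i) : ℂ) = 0 := by
  unfold unitVec
  rw [if_neg]
  simp only [Fin.val_natAdd]
  omega

theorem unit_f (n : ℕ) (i : Fin 4) : (unitVec (4 + n) (Fin.castAdd 3 i) : ℂ) = 0 := by
  unfold unitVec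
  rw [if_neg]
  simp only [Fin.val_castAdd]
  omega

theorem cond_γ (g : Mat 4 3) (hg : IsBase γ0 g) : (bA g).rank ≤ 2 ∧ (bC g).rank ≤ 2 ∧
    ∀ i j, bC g i 0 * bC g j 1 = bC g j 0 * bC g i 1 := by
  obtain ⟨a, b, h1, h2, h3, _, _⟩ := hg
  obtain ⟨p1, p2, _, _, p3⟩ := h3 0 3 ((arc_γ 0 3).2 (Or.inl ⟨rfl, rfl⟩))
  obtain ⟨p4, p5⟩ := h1 1 rfl
  obtain ⟨p6, p7⟩ := h2 2 rfl
  have c0 : ∀ r, g r 0 = unitVec (a 0) r + unitVec (4 + b 0) r := fun r => (p3 r).1
  have c3 : ∀ r, g r 3 = unitVec (a 0) r - unitVec (4 + b 0) r := fun r => (p3 r).2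
  refine ⟨?_, ?_, ?_⟩
  · apply rk_fact (bA g) (fun i => unitVec (a 0) (Fin.castAdd 3 i))
      (fun i => unitVec (a 1) (Fin.castAdd 3 i)) ![1, 0, 0, 1] ![0, 1, 0, 0]
    intro i j
    fin_cases j
    · change g (Fin.castAdd 3 i) 0 = _
      rw [c0, unit_f]
      simp
    · change g (Fin.castAdd 3 i) 1 = _
      rw [p5]
      simp
    · change g (Fin.castAdd 3 i) 2 = _
      rw [p7, unit_f]
      simp
    · change g (Fin.castAdd 3 i) 3 = _
      rw [c3, unit_f]
      simp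
  · apply rk_fact (bC g) (fun i => unitVec (4 + b 0) (Fin.natAdd 4 i))
      (fun i => unitVec (4 + b 2) (Fin.natAdd 4 i)) ![1, 0, 0, -1] ![0, 0, 1, 0]
    intro i j
    fin_cases j
    · change g (Fin.natAdd 4 i) 0 = _
      rw [c0, unit_e _ p1]
      simp
    · change g (Fin.natAdd 4 i) 1 = _
      rw [p5, unit_e _ p4]
      simp
    · change g (Fin.natAdd 4 i) 2 = _
      rw [p7]
      simp
    · change g (Fin.natAdd 4 i) 3 = _
      rw [c3, unit_e _ p1]
      simp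
  · intro i j
    have h : ∀ i, bC g i 1 = 0 := by
      intro i
      change g (Fin.natAdd 4 i) 1 = _
      rw [p5, unit_e _ p4]
    rw [h, h]
    ring

theorem cond_α (g : Mat 4 3) (hg : IsBase α0 g) : (bA g).rank ≤ 2 ∧ (bC g).rank ≤ 2 ∧
    ∀ i, bC g i 0 = 0 ∧ bC g i 1 = 0 := by
  obtain ⟨a, b, h1, h2, h3, _, _⟩ := hg
  obtain ⟨p1, p2⟩ := h1 0 rfl
  obtain ⟨p4, p5⟩ := h1 1 rfl
  obtain ⟨p6, p7⟩ := h2 2 rfl
  obtain ⟨p8, p9⟩ := h2 3 rfl
  refine ⟨?_, ?_, ?_⟩
  · apply rk_fact (bA g) (fun i => unitVec (a 0) (Fin.castAdd 3 i))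
      (fun i => unitVec (a 1) (Fin.castAdd 3 i)) ![1, 0, 0, 0] ![0, 1, 0, 0]
    intro i j
    fin_cases j
    · change g (Fin.castAdd 3 i) 0 = _
      rw [p2]
      simp
    · change g (Fin.castAdd 3 i) 1 = _
      rw [p5]
      simp
    · change g (Fin.castAdd 3 i) 2 = _
      rw [p7, unit_f]
      simp
    · change g (Fin.castAdd 3 i) 3 = _
      rw [p9, unit_f]
      simp
  · apply rk_fact (bC g) (fun i => unitVec (4 + b 2) (Fin.natAdd 4 i))
      (fun i => unitVec (4 + b 3) (Fin.natAdd 4 i)) ![0, 0, 1, 0] ![0, 0, 0, 1]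
    intro i j
    fin_cases j
    · change g (Fin.natAdd 4 i) 0 = _
      rw [p2, unit_e _ p1]
      simp
    · change g (Fin.natAdd 4 i) 1 = _
      rw [p5, unit_e _ p4]
      simp
    · change g (Fin.natAdd 4 i) 2 = _
      rw [p7]
      simp
    · change g (Fin.natAdd 4 i) 3 = _
      rw [p9]
      simp
  · intro i
    constructor
    · change g (Fin.natAdd 4 i) 0 = _
      rw [p2, unit_e _ p1]
    · change g (Fin.natAdd 4 i) 1 = _
      rw [p5, unit_e _ p4]

theorem Y_sub_RR : Y γ0 ⊆ RR := by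
  apply clo_sub_RR
  · rintro y ⟨k, hk, g, hg, b, hb, rfl⟩
    exact (rank_KQ k g b hk (B_sub_QQ hb) (cond_γ g hg).1 (cond_γ g hg).2.1).1
  · rintro y ⟨k, hk, g, hg, b, hb, rfl⟩
    exact (rank_KQ k g b hk (B_sub_QQ hb) (cond_γ g hg).1 (cond_γ g hg).2.1).2
  · rintro y ⟨k, hk, g, hg, b, hb, rfl⟩
    exact D_KQ k g b hk (B_sub_QQ hb) (cond_γ g hg).2.2

theorem Y_sub_RR0 : Y α0 ⊆ RR0 := by
  apply clo_sub_RR0
  · rintro y ⟨k, hk, g, hg, b, hb, rfl⟩
    exact (rank_KQ k g b hk (B_sub_QQ hb) (cond_α g hg).1 (cond_α g hg).2.1).1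
  · rintro y ⟨k, hk, g, hg, b, hb, rfl⟩
    exact (rank_KQ k g b hk (B_sub_QQ hb) (cond_α g hg).1 (cond_α g hg).2.1).2
  · rintro y ⟨k, hk, g, hg, b, hb, rfl⟩
    exact D0_KQ k g b hk (B_sub_QQ hb) (cond_α g hg).2.2

theorem self_mem (g : Mat 4 3) (hg : g.det ≠ 0) : g ∈ clo (OO g) :=
  subset_clo _ (fun _ => OO_det hg) ⟨1, one_K, 1, one_B, by rw [one_mul, mul_one]⟩

theorem fin01 (j : Fin (4 + 3)) (hj : j.val < 2) : j = 0 ∨ j = 1 := by
  have : j.val = 0 ∨ j.val = 1 := by omega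
  rcases this with h | h
  · exact Or.inl (Fin.ext h)
  · exact Or.inr (Fin.ext h)

theorem fin23 (j : Fin (4 + 3)) (hj : 2 ≤ j.val) (hj' : j.val < 4) : j = 2 ∨ j = 3 := by
  have : j.val = 2 ∨ j.val = 3 := by omega
  rcases this with h | h
  · exact Or.inl (Fin.ext h)
  · exact Or.inr (Fin.ext h)

theorem x2_mem : x2 ∈ clo (OO gγ) := by
  obtain ⟨m, hm, h⟩ := assemble gγ x2 gγ_det x2_det (by
    intro j hj
    rcases fin01 j hj with rfl | rfl
    · refine ⟨0, 1, fun r => ?_⟩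
      fin_cases r <;> simp [x2, π0, gγ]
    · refine ⟨1, 0, fun r => ?_⟩
      fin_cases r <;> simp [x2, π0, gγ]) (by
    intro j hj hj'
    rcases fin23 j hj hj' with rfl | rfl
    · refine ⟨1 / 2, 0, 0, -(1 / 2), fun r => ?_⟩
      fin_cases r <;> simp [x2, π0, gγ]
      norm_num
    · refine ⟨0, 0, 1, 0, fun r => ?_⟩
      fin_cases r <;> simp [x2, π0, gγ])
  rw [h]
  exact gγ_QQ m hm _ (self_mem gγ gγ_det)

theorem diag_K (d : Fin (4 + 3) → ℂ) (hd : ∀ i, d i ≠ 0) : (diagonal d : Mat 4 3) ∈ K 4 3 := by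
  refine ⟨?_, ?_⟩
  · rw [det_diagonal]
    exact Finset.prod_ne_zero_iff.2 (fun i _ => hd i)
  · intro i j hij
    rw [diagonal_apply_ne]
    rintro rfl
    exact hij Iff.rfl

theorem x1_mem : x1 ∈ clo (OO gγ) := by
  refine mem_clo_of_line _ x1 (single 1 1 1)
    ({t : ℂ | (x1 + t • single 1 1 1).det = 0} ∪ {0})
    ((finite_det x1 _ x1_det).union (Set.finite_singleton 0)) x1_det ?_
  intro t ht
  simp only [Set.mem_union, Set.mem_ofPred_eq, Set.mem_singleton_iff, not_or] at ht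
  obtain ⟨ht1, ht0⟩ := ht
  have hd : ∀ i, (fun i : Fin (4 + 3) => if i = 1 then t else 1) i ≠ 0 := by
    intro i
    by_cases h : i = 1
    · simp [h, ht0]
    · simp [h]
  have hK := diag_K _ hd
  obtain ⟨m, hm, h⟩ := assemble (diagonal (fun i : Fin (4 + 3) => if i = 1 then t else 1) * x2)
    (x1 + t • single 1 1 1) (by
      rw [det_mul]
      exact mul_ne_zero hK.1 x2_det) ht1 (by
    intro j hj
    rcases fin01 j hj with rfl | rfl
    · refine ⟨1, 0, fun r => ?_⟩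
      rw [diagonal_mul, diagonal_mul]
      fin_cases r <;> simp [x2, x1, π0, π1, single_apply]
    · refine ⟨0, 1, fun r => ?_⟩
      rw [diagonal_mul, diagonal_mul]
      fin_cases r <;> simp [x2, x1, π0, π1, single_apply]) (by
    intro j hj hj'
    rcases fin23 j hj hj' with rfl | rfl
    · refine ⟨0, 1 / t, -(1 / t), 0, fun r => ?_⟩
      rw [diagonal_mul, diagonal_mul, diagonal_mul, diagonal_mul]
      fin_cases r <;> simp [x2, x1, π0, π1, single_apply]
      field_simp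
    · refine ⟨0, 0, 0, 1, fun r => ?_⟩
      rw [diagonal_mul, diagonal_mul, diagonal_mul, diagonal_mul]
      fin_cases r <;> simp [x2, x1, π0, π1, single_apply])
  rw [h]
  exact gγ_QQ m hm _ (cloOO_K hK gγ_det x2_mem)

theorem x0_mem : x0 ∈ clo (OO gγ) := by
  refine mem_clo_of_line _ x0 (single 4 1 1)
    ({t : ℂ | (x0 + t • single 4 1 1).det = 0} ∪ {0})
    ((finite_det x0 _ x0_det).union (Set.finite_singleton 0)) x0_det ?_
  intro t ht
  simp only [Set.mem_union, Set.mem_ofPred_eq, Set.mem_singleton_iff, not_or] at ht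
  obtain ⟨ht1, ht0⟩ := ht
  have hd : ∀ i, (fun i : Fin (4 + 3) => if i = 4 then t else 1) i ≠ 0 := by
    intro i
    by_cases h : i = 4
    · simp [h, ht0]
    · simp [h]
  have hK := diag_K _ hd
  obtain ⟨m, hm, h⟩ := assemble (diagonal (fun i : Fin (4 + 3) => if i = 4 then t else 1) * x2)
    (x0 + t • single 4 1 1) (by
      rw [det_mul]
      exact mul_ne_zero hK.1 x2_det) ht1 (by
    intro j hj
    rcases fin01 j hj with rfl | rfl
    · refine ⟨1, 0, fun r => ?_⟩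
      rw [diagonal_mul, diagonal_mul]
      fin_cases r <;> simp [x2, x0, π0, single_apply]
    · refine ⟨0, 1, fun r => ?_⟩
      rw [diagonal_mul, diagonal_mul]
      fin_cases r <;> simp [x2, x0, π0, single_apply]) (by
    intro j hj hj'
    rcases fin23 j hj hj' with rfl | rfl
    · refine ⟨0, 0, 1 / t, 0, fun r => ?_⟩
      rw [diagonal_mul, diagonal_mul, diagonal_mul, diagonal_mul]
      fin_cases r <;> simp [x2, x0, π0, single_apply]
      field_simp
    · refine ⟨0, 0, 0, 1, fun r => ?_⟩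
      rw [diagonal_mul, diagonal_mul, diagonal_mul, diagonal_mul]
      fin_cases r <;> simp [x2, x0, π0, single_apply])
  rw [h]
  exact gγ_QQ m hm _ (cloOO_K hK gγ_det x2_mem)

theorem x0_mem' : x0 ∈ clo (OO gα) := by
  obtain ⟨m, hm, h⟩ := assemble gα x0 gα_det x0_det (by
    intro j hj
    rcases fin01 j hj with rfl | rfl
    · refine ⟨1, 0, fun r => ?_⟩
      fin_cases r <;> simp [x0, π0, gα]
    · refine ⟨0, 1, fun r => ?_⟩
      fin_cases r <;> simp [x0, π0, gα]) (by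
    intro j hj hj'
    rcases fin23 j hj hj' with rfl | rfl
    · refine ⟨0, 0, 1, 0, fun r => ?_⟩
      fin_cases r <;> simp [x0, π0, gα]
    · refine ⟨0, 0, 0, 1, fun r => ?_⟩
      fin_cases r <;> simp [x0, π0, gα])
  rw [h]
  exact gα_QQ m hm _ (self_mem gα gα_det)

theorem OO_sub_orb {γ : Clan 4 3} {g : Mat 4 3} (hg : IsBase γ g) : OO g ⊆ orb γ := by
  rintro x ⟨k, hk, b, hb, rfl⟩
  exact ⟨k, hk, g, hg, b, hb, rfl⟩

theorem RR_sub : RR ⊆ clo (OO gγ) := by
  intro x hx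
  by_cases h0 : x ∈ RR0
  · obtain ⟨k, hk, m, hm, rfl⟩ := cls0 x h0
    exact KxQ_sub gγ gγ_det gγ_QQ x0 x0_mem k hk m hm
  · obtain ⟨k, hk, m, hm, h | h⟩ := cls x hx h0
    · rw [h]
      exact KxQ_sub gγ gγ_det gγ_QQ x1 x1_mem k hk m hm
    · rw [h]
      exact KxQ_sub gγ gγ_det gγ_QQ x2 x2_mem k hk m hm

theorem RR0_sub : RR0 ⊆ clo (OO gα) := by
  intro x hx
  obtain ⟨k, hk, m, hm, rfl⟩ := cls0 x hx
  exact KxQ_sub gα gα_det gα_QQ x0 x0_mem' k hk m hm

theorem Y_γ : Y γ0 = RR :=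
  Set.Subset.antisymm Y_sub_RR (RR_sub.trans (clo_mono (OO_sub_orb base_γ)))

theorem Y_α : Y α0 = RR0 :=
  Set.Subset.antisymm Y_sub_RR0 (RR0_sub.trans (clo_mono (OO_sub_orb base_α)))

theorem cloOO_α : clo (OO gα) = RR0 :=
  Set.Subset.antisymm ((clo_mono (OO_sub_orb base_α)).trans Y_sub_RR0) RR0_sub

end Pool.Agent.Q35.CL
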