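import Mathlib
import Pool.Agent.Q35.CL.Stab

set_option autoImplicit false

/-! Irreducibility of orbit closures. -/

namespace Pool.Agent.Q35.CL

open Matrix

variable {p q : ℕ}

theorem det_line (x v : Mat p q) (t : ℂ) : ((line x v).det).eval t = (x + t • v).det := by
  rw [← at_line]
  unfold at'
  rw [← RingHom.mapMatrix_apply, ← RingHom.map_det]
  rfl

theorem at_mul (c d : PMat p q) (t : ℂ) : at' (c * d) t = at' c t * at' d t := by
  unfold at'
  rw [Matrix.map_mul]

/-- The closure of a `K × B`-orbit is irreducible. -/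
theorem irred_OO (g : Mat p q) (hg : g.det ≠ 0) : IrredClosed (clo (OO g)) := by
  refine ⟨clo_clo _, ⟨g, subset_clo _ (fun _ => OO_det hg) ⟨1, one_K, 1, one_B, by rw [one_mul, mul_one]⟩⟩, ?_⟩
  intro f h hfh
  by_contra hcon
  push Not at hcon
  obtain ⟨⟨x, hx, hfx⟩, ⟨y, hy, hhy⟩⟩ := hcon
  have hx' : ∃ x ∈ OO g, ev f x ≠ 0 := by
    by_contra hc
    push Not at hc
    exact hfx (hx.2 f hc)
  have hy' : ∃ y ∈ OO g, ev h y ≠ 0 := by
    by_contra hc
    push Not at hc
    exact hhy (hy.2 h hc)
  obtain ⟨_, ⟨k1, hk1, b1, hb1, rfl⟩, hf1⟩ := hx'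
  obtain ⟨_, ⟨k2, hk2, b2, hb2, rfl⟩, hh2⟩ := hy'
  set c : PMat p q := line k1 (k2 - k1) * line g 0 * line b1 (b2 - b1) with hc
  have hct : ∀ t, at' c t = (k1 + t • (k2 - k1)) * g * (b1 + t • (b2 - b1)) := by
    intro t
    rw [hc, at_mul, at_mul, at_line, at_line, at_line, smul_zero, add_zero]
  have hprod : cev f c * cev h c * ((line k1 (k2 - k1)).det * (line b1 (b2 - b1)).det) = 0 := by
    apply Polynomial.funext
    intro t
    rw [Polynomial.eval_mul, Polynomial.eval_mul, Polynomial.eval_mul, eval_cev, eval_cev,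
      det_line, det_line, Polynomial.eval_zero, hct]
    by_cases hkt : (k1 + t • (k2 - k1)).det = 0
    · rw [hkt]
      ring
    · by_cases hbt : (b1 + t • (b2 - b1)).det = 0
      · rw [hbt]
        ring
      · have hkK : (k1 + t • (k2 - k1)) ∈ K p q := by
          refine ⟨hkt, fun i j hij => ?_⟩
          simp [hk1.2 i j hij, hk2.2 i j hij]
        have hbB : (b1 + t • (b2 - b1)) ∈ B p q := by
          refine ⟨hbt, fun i j hij => ?_⟩
          simp [hb1.2 i j hij, hb2.2 i j hij]
        rw [hfh _ (subset_clo _ (fun _ => OO_det hg) ⟨_, hkK, _, hbB, rfl⟩)]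
        ring
  rcases mul_eq_zero.1 hprod with h1 | h1
  · rcases mul_eq_zero.1 h1 with h2 | h2
    · apply hf1
      have h3 : (cev f c).eval 0 = 0 := by rw [h2, Polynomial.eval_zero]
      rw [eval_cev, hct] at h3
      simpa using h3
    · apply hh2
      have h3 : (cev h c).eval 1 = 0 := by rw [h2, Polynomial.eval_zero]
      rw [eval_cev, hct] at h3
      simpa using h3
  · rcases mul_eq_zero.1 h1 with h2 | h2
    · apply hk1.1
      have h3 : ((line k1 (k2 - k1)).det).eval 0 = 0 := by rw [h2, Polynomial.eval_zero]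
      rw [det_line] at h3
      simpa using h3
    · apply hb1.1
      have h3 : ((line b1 (b2 - b1)).det).eval 0 = 0 := by rw [h2, Polynomial.eval_zero]
      rw [det_line] at h3
      simpa using h3


end Pool.Agent.Q35.CL
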