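import Mathlib
import Pool.Agent.Q35.CL.Cl3

set_option autoImplicit false
set_option linter.unusedSimpArgs false

/-! Tangent spaces of `RR`. -/

namespace Pool.Agent.Q35.CL

open Matrix

theorem mem_tan_RR (x v : Mat 4 3) (hx : x.det ≠ 0)
    (hA : ∀ t : ℂ, (bA (x + t • v)).rank ≤ 2) (hC : ∀ t : ℂ, (bC (x + t • v)).rank ≤ 2)
    (hD : ∀ t : ℂ, ∀ i j, bC (x + t • v) i 0 * bC (x + t • v) j 1 =
      bC (x + t • v) j 0 * bC (x + t • v) i 1) : v ∈ tan RR x := by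
  refine mem_tan_of_line RR x v _ (finite_det x v hx) ?_
  intro t ht
  exact ⟨ht, hA t, hC t, hD t⟩

/-- restriction of `v` to the positions satisfying `P` -/
noncomputable def res (P : Fin (4 + 3) → Fin (4 + 3) → Bool) (v : Mat 4 3) : Mat 4 3 :=
  fun r s => if P r s then v r s else 0

/-- 3 x 3 derivative -/
theorem deriv_det3 (x v : Matrix (Fin 3) (Fin 3) ℂ) :
    (Polynomial.derivative (Matrix.det (Matrix.of (fun i j => Polynomial.C (x i j) +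
      Polynomial.X * Polynomial.C (v i j)) : Matrix (Fin 3) (Fin 3) (Polynomial ℂ)))).eval 0 =
    v 0 0 * (x 1 1 * x 2 2 - x 1 2 * x 2 1) - v 0 1 * (x 1 0 * x 2 2 - x 1 2 * x 2 0) +
    v 0 2 * (x 1 0 * x 2 1 - x 1 1 * x 2 0) - v 1 0 * (x 0 1 * x 2 2 - x 0 2 * x 2 1) +
    v 1 1 * (x 0 0 * x 2 2 - x 0 2 * x 2 0) - v 1 2 * (x 0 0 * x 2 1 - x 0 1 * x 2 0) +
    v 2 0 * (x 0 1 * x 1 2 - x 0 2 * x 1 1) - v 2 1 * (x 0 0 * x 1 2 - x 0 2 * x 1 0) +
    v 2 2 * (x 0 0 * x 1 1 - x 0 1 * x 1 0) := by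
  rw [det_fin_three]
  simp
  ring

theorem tan_minor (x v : Mat 4 3) (hv : v ∈ tan RR x) (r c : Fin 3 → Fin (4 + 3))
    (h : ∀ y ∈ RR, (y.submatrix r c).det = 0) :
    v (r 0) (c 0) * (x (r 1) (c 1) * x (r 2) (c 2) - x (r 1) (c 2) * x (r 2) (c 1)) -
    v (r 0) (c 1) * (x (r 1) (c 0) * x (r 2) (c 2) - x (r 1) (c 2) * x (r 2) (c 0)) +
    v (r 0) (c 2) * (x (r 1) (c 0) * x (r 2) (c 1) - x (r 1) (c 1) * x (r 2) (c 0)) -
    v (r 1) (c 0) * (x (r 0) (c 1) * x (r 2) (c 2) - x (r 0) (c 2) * x (r 2) (c 1)) +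
    v (r 1) (c 1) * (x (r 0) (c 0) * x (r 2) (c 2) - x (r 0) (c 2) * x (r 2) (c 0)) -
    v (r 1) (c 2) * (x (r 0) (c 0) * x (r 2) (c 1) - x (r 0) (c 1) * x (r 2) (c 0)) +
    v (r 2) (c 0) * (x (r 0) (c 1) * x (r 1) (c 2) - x (r 0) (c 2) * x (r 1) (c 1)) -
    v (r 2) (c 1) * (x (r 0) (c 0) * x (r 1) (c 2) - x (r 0) (c 2) * x (r 1) (c 0)) +
    v (r 2) (c 2) * (x (r 0) (c 0) * x (r 1) (c 1) - x (r 0) (c 1) * x (r 1) (c 0)) = 0 := by
  have h1 := hv (minor r c) (fun y hy => by rw [ev_minor]; exact h y hy)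
  rw [← deriv_line] at h1
  have h2 : cev (minor r c) (line x v) = Matrix.det (Matrix.of (fun i j =>
      Polynomial.C ((x.submatrix r c) i j) + Polynomial.X * Polynomial.C ((v.submatrix r c) i j)) :
        Matrix (Fin 3) (Fin 3) (Polynomial ℂ)) := by
    unfold cev minor
    rw [← AlgHom.coe_toRingHom, RingHom.map_det]
    congr 1
    ext i j : 2
    simp [line]
  rw [h2] at h1
  have h3 := deriv_det3 (x.submatrix r c) (v.submatrix r c)
  rw [h1] at h3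
  exact h3.symm

theorem RR_minorA (r c : Fin 3 → Fin 4) : ∀ y ∈ RR,
    (y.submatrix (Fin.castAdd 3 ∘ r) (Fin.castAdd 3 ∘ c)).det = 0 :=
  fun y hy => minors_of_rank_le_two (bA y) hy.2.1 r c

theorem RR_minorC (r : Fin 3 → Fin 3) (c : Fin 3 → Fin 4) : ∀ y ∈ RR,
    (y.submatrix (Fin.natAdd 4 ∘ r) (Fin.castAdd 3 ∘ c)).det = 0 :=
  fun y hy => minors_of_rank_le_two (bC y) hy.2.2.1 r c

theorem tan_two (x v : Mat 4 3) (hv : v ∈ tan RR x) :
    v 4 0 * x 5 1 + x 4 0 * v 5 1 - v 5 0 * x 4 1 - x 5 0 * v 4 1 = 0 := by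
  have h1 := hv (MvPolynomial.X (4, 0) * MvPolynomial.X (5, 1) -
    MvPolynomial.X (5, 0) * MvPolynomial.X (4, 1)) (fun y hy => by
      unfold ev
      simp only [map_sub, map_mul, MvPolynomial.eval_X]
      exact sub_eq_zero.2 (hy.2.2.2 0 1))
  rw [← deriv_line] at h1
  simp [cev, line] at h1
  linear_combination h1

theorem ker_finrank {m : ℕ} (φ : Mat 4 3 →ₗ[ℂ] (Fin m → ℂ)) (k : ℕ) (hk : k + m = 49) :
    k ≤ Module.finrank ℂ (LinearMap.ker φ) := by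
  have h1 := LinearMap.finrank_range_add_finrank_ker φ
  have h2 : Module.finrank ℂ (LinearMap.range φ) ≤ m := by
    have := Submodule.finrank_le (LinearMap.range φ)
    simpa using this
  have h3 : Module.finrank ℂ (Mat 4 3) = 49 := by
    rw [Module.finrank_matrix]
    simp
  omega

theorem ker_finrank_surj {m : ℕ} (φ : Mat 4 3 →ₗ[ℂ] (Fin m → ℂ)) (k : ℕ) (hk : k + m = 49)
    (hs : Function.Surjective φ) : Module.finrank ℂ (LinearMap.ker φ) = k := by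
  have h1 := LinearMap.finrank_range_add_finrank_ker φ
  have h2 : Module.finrank ℂ (LinearMap.range φ) = m := by
    rw [LinearMap.range_eq_top.2 hs]
    simp
  have h3 : Module.finrank ℂ (Mat 4 3) = 49 := by
    rw [Module.finrank_matrix]
    simp
  omega

/-- the six conditions at `x0` -/
noncomputable def φ0 : Mat 4 3 →ₗ[ℂ] (Fin 6 → ℂ) where
  toFun v := ![v 6 0, v 6 1, v 2 2, v 3 2, v 2 3, v 3 3]
  map_add' v w := by
    funext i
    fin_cases i <;> simp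
  map_smul' c v := by
    funext i
    fin_cases i <;> simp

/-- the seven conditions at `x1` -/
noncomputable def φ1 : Mat 4 3 →ₗ[ℂ] (Fin 7 → ℂ) where
  toFun v := ![v 2 1, v 3 1, v 2 3, v 3 3, v 6 0, v 6 2, v 5 0]
  map_add' v w := by
    funext i
    fin_cases i <;> simp
  map_smul' c v := by
    funext i
    fin_cases i <;> simp

/-- the seven conditions at `x2` -/
noncomputable def φ2 : Mat 4 3 →ₗ[ℂ] (Fin 7 → ℂ) where
  toFun v := ![v 2 2, v 3 2, v 2 3, v 3 3, v 6 0, v 5 0, v 6 1 - v 6 2]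
  map_add' v w := by
    funext i
    fin_cases i <;> simp
    ring
  map_smul' c v := by
    funext i
    fin_cases i <;> simp
    ring

theorem φ1_surj : Function.Surjective φ1 := by
  intro w
  refine ⟨Matrix.of ![
    ![0, 0, 0, 0, 0, 0, 0],
    ![0, 0, 0, 0, 0, 0, 0],
    ![0, w 0, 0, w 2, 0, 0, 0],
    ![0, w 1, 0, w 3, 0, 0, 0],
    ![0, 0, 0, 0, 0, 0, 0],
    ![w 6, 0, 0, 0, 0, 0, 0],
    ![w 4, 0, w 5, 0, 0, 0, 0]], ?_⟩
  funext i
  fin_cases i <;> rfl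

theorem φ2_surj : Function.Surjective φ2 := by
  intro w
  refine ⟨Matrix.of ![
    ![0, 0, 0, 0, 0, 0, 0],
    ![0, 0, 0, 0, 0, 0, 0],
    ![0, 0, w 0, w 2, 0, 0, 0],
    ![0, 0, w 1, w 3, 0, 0, 0],
    ![0, 0, 0, 0, 0, 0, 0],
    ![w 5, 0, 0, 0, 0, 0, 0],
    ![w 4, w 6, 0, 0, 0, 0, 0]], ?_⟩
  funext i
  fin_cases i <;> simp [φ2]

theorem tan_x1_le : tan RR x1 ≤ LinearMap.ker φ1 := by
  intro v hv
  rw [LinearMap.mem_ker]
  have a1 := tan_minor x1 v hv _ _ (RR_minorA ![0, 1, 2] ![0, 2, 1])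
  have a2 := tan_minor x1 v hv _ _ (RR_minorA ![0, 1, 3] ![0, 2, 1])
  have a3 := tan_minor x1 v hv _ _ (RR_minorA ![0, 1, 2] ![0, 2, 3])
  have a4 := tan_minor x1 v hv _ _ (RR_minorA ![0, 1, 3] ![0, 2, 3])
  have a5 := tan_minor x1 v hv _ _ (RR_minorC ![0, 1, 2] ![1, 3, 0])
  have a6 := tan_minor x1 v hv _ _ (RR_minorC ![0, 1, 2] ![1, 3, 2])
  have a7 := tan_two x1 v hv
  simp [x1, π1] at a1 a2 a3 a4 a5 a6 a7
  funext i
  fin_cases i
  · exact a1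
  · exact a2
  · exact a3
  · exact a4
  · exact a5
  · exact a6
  · exact a7

theorem tan_x2_le : tan RR x2 ≤ LinearMap.ker φ2 := by
  intro v hv
  rw [LinearMap.mem_ker]
  have a1 := tan_minor x2 v hv _ _ (RR_minorA ![0, 1, 2] ![0, 1, 2])
  have a2 := tan_minor x2 v hv _ _ (RR_minorA ![0, 1, 3] ![0, 1, 2])
  have a3 := tan_minor x2 v hv _ _ (RR_minorA ![0, 1, 2] ![0, 1, 3])
  have a4 := tan_minor x2 v hv _ _ (RR_minorA ![0, 1, 3] ![0, 1, 3])
  have a5 := tan_minor x2 v hv _ _ (RR_minorC ![0, 1, 2] ![2, 3, 0])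
  have a6 := tan_minor x2 v hv _ _ (RR_minorC ![0, 1, 2] ![1, 2, 3])
  have a7 := tan_two x2 v hv
  simp [x2, π0] at a1 a2 a3 a4 a5 a6 a7
  funext i
  fin_cases i
  · exact a1
  · exact a2
  · exact a3
  · exact a4
  · exact a5
  · exact a7
  · change v 6 1 - v 6 2 = 0
    linear_combination a6

end Pool.Agent.Q35.CL
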