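import Mathlib
import Pool.Agent.Q35.CL.Tan

set_option autoImplicit false
set_option linter.unusedSimpArgs false
set_option linter.unreachableTactic false
set_option linter.unusedTactic false

/-! Lower bounds for the tangent spaces of `RR`. -/

namespace Pool.Agent.Q35.CL

open Matrix

theorem nat4 (i : Fin 3) : (Fin.natAdd 4 i : Fin (4 + 3)) = ![4, 5, 6] i := by
  fin_cases i <;> rfl

theorem cst4 (i : Fin 4) : (Fin.castAdd 3 i : Fin (4 + 3)) = ![0, 1, 2, 3] i := by
  fin_cases i <;> rfl

theorem ker_φ0_le : LinearMap.ker φ0 ≤ tan RR x0 := by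
  intro v hv
  rw [LinearMap.mem_ker] at hv
  have h1 : v 6 0 = 0 := congrFun hv 0
  have h2 : v 6 1 = 0 := congrFun hv 1
  have h3 : v 2 2 = 0 := congrFun hv 2
  have h4 : v 3 2 = 0 := congrFun hv 3
  have h5 : v 2 3 = 0 := congrFun hv 4
  have h6 : v 3 3 = 0 := congrFun hv 5
  have hsum : v = res (fun _ s => decide (4 ≤ s)) v + res (fun r s => decide (s < 2 ∧ r < 4)) v +
      res (fun r s => decide (s = 0 ∧ (r = 4 ∨ r = 5))) v +
      res (fun r s => decide (s = 1 ∧ (r = 4 ∨ r = 5))) v +
      res (fun r s => decide ((s = 2 ∨ s = 3) ∧ r < 2)) v +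
      res (fun r s => decide ((s = 2 ∨ s = 3) ∧ 4 ≤ r)) v := by
    ext r s
    fin_cases r <;> fin_cases s <;> simp [res, h1, h2, h3, h4, h5, h6]
  rw [hsum]
  refine Submodule.add_mem _ (Submodule.add_mem _ (Submodule.add_mem _ (Submodule.add_mem _
    (Submodule.add_mem _ ?_ ?_) ?_) ?_) ?_) ?_
  · apply mem_tan_RR _ _ x0_det
    · intro t
      apply rk_cols _ 0 1 (by decide)
      intro i j
      fin_cases i <;> fin_cases j <;> simp [bA, cst4, x0, π0, res]
    · intro t
      apply rk_cols _ 2 3 (by decide)
      intro i j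
      fin_cases i <;> fin_cases j <;> simp [bC, cst4, nat4, x0, π0, res]
    · intro t i j
      fin_cases i <;> fin_cases j <;> simp [bC, cst4, nat4, x0, π0, res]
  · apply mem_tan_RR _ _ x0_det
    · intro t
      apply rk_cols _ 0 1 (by decide)
      intro i j
      fin_cases i <;> fin_cases j <;> simp [bA, cst4, x0, π0, res]
    · intro t
      apply rk_cols _ 2 3 (by decide)
      intro i j
      fin_cases i <;> fin_cases j <;> simp [bC, cst4, nat4, x0, π0, res]
    · intro t i j
      fin_cases i <;> fin_cases j <;> simp [bC, cst4, nat4, x0, π0, res]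
  · apply mem_tan_RR _ _ x0_det
    · intro t
      apply rk_cols _ 0 1 (by decide)
      intro i j
      fin_cases i <;> fin_cases j <;> simp [bA, cst4, x0, π0, res]
    · intro t
      apply rk_rows _ 0 1 (by decide)
      intro i j
      fin_cases i <;> fin_cases j <;> simp [bC, cst4, nat4, x0, π0, res]
    · intro t i j
      fin_cases i <;> fin_cases j <;> simp [bC, cst4, nat4, x0, π0, res]
  · apply mem_tan_RR _ _ x0_det
    · intro t
      apply rk_cols _ 0 1 (by decide)
      intro i j
      fin_cases i <;> fin_cases j <;> simp [bA, cst4, x0, π0, res]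
    · intro t
      apply rk_rows _ 0 1 (by decide)
      intro i j
      fin_cases i <;> fin_cases j <;> simp [bC, cst4, nat4, x0, π0, res]
    · intro t i j
      fin_cases i <;> fin_cases j <;> simp [bC, cst4, nat4, x0, π0, res]
  · apply mem_tan_RR _ _ x0_det
    · intro t
      apply rk_rows _ 0 1 (by decide)
      intro i j
      fin_cases i <;> fin_cases j <;> simp [bA, cst4, x0, π0, res]
    · intro t
      apply rk_cols _ 2 3 (by decide)
      intro i j
      fin_cases i <;> fin_cases j <;> simp [bC, cst4, nat4, x0, π0, res]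
    · intro t i j
      fin_cases i <;> fin_cases j <;> simp [bC, cst4, nat4, x0, π0, res]
  · apply mem_tan_RR _ _ x0_det
    · intro t
      apply rk_cols _ 0 1 (by decide)
      intro i j
      fin_cases i <;> fin_cases j <;> simp [bA, cst4, x0, π0, res]
    · intro t
      apply rk_cols _ 2 3 (by decide)
      intro i j
      fin_cases i <;> fin_cases j <;> simp [bC, cst4, nat4, x0, π0, res]
    · intro t i j
      fin_cases i <;> fin_cases j <;> simp [bC, cst4, nat4, x0, π0, res]

theorem ker_φ1_le : LinearMap.ker φ1 ≤ tan RR x1 := by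
  intro v hv
  rw [LinearMap.mem_ker] at hv
  have h1 : v 2 1 = 0 := congrFun hv 0
  have h2 : v 3 1 = 0 := congrFun hv 1
  have h3 : v 2 3 = 0 := congrFun hv 2
  have h4 : v 3 3 = 0 := congrFun hv 3
  have h5 : v 6 0 = 0 := congrFun hv 4
  have h6 : v 6 2 = 0 := congrFun hv 5
  have h7 : v 5 0 = 0 := congrFun hv 6
  have hsum : v = res (fun _ s => decide (4 ≤ s)) v +
      res (fun r s => decide ((s = 0 ∨ s = 2) ∧ r < 4)) v +
      res (fun r s => decide (s = 0 ∧ r = 4)) v +
      res (fun r s => decide (s = 2 ∧ (r = 4 ∨ r = 5))) v +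
      res (fun r s => decide ((s = 1 ∨ s = 3) ∧ r < 2)) v +
      res (fun r s => decide ((s = 1 ∨ s = 3) ∧ 4 ≤ r)) v := by
    ext r s
    fin_cases r <;> fin_cases s <;> simp [res, h1, h2, h3, h4, h5, h6, h7]
  rw [hsum]
  refine Submodule.add_mem _ (Submodule.add_mem _ (Submodule.add_mem _ (Submodule.add_mem _
    (Submodule.add_mem _ ?_ ?_) ?_) ?_) ?_) ?_
  · apply mem_tan_RR _ _ x1_det
    · intro t
      apply rk_cols _ 0 2 (by decide)
      intro i j
      fin_cases i <;> fin_cases j <;> simp [bA, cst4, x1, π1, res]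
    · intro t
      apply rk_cols _ 1 3 (by decide)
      intro i j
      fin_cases i <;> fin_cases j <;> simp [bC, cst4, nat4, x1, π1, res]
    · intro t i j
      fin_cases i <;> fin_cases j <;> simp [bC, cst4, nat4, x1, π1, res]
  · apply mem_tan_RR _ _ x1_det
    · intro t
      apply rk_cols _ 0 2 (by decide)
      intro i j
      fin_cases i <;> fin_cases j <;> simp [bA, cst4, x1, π1, res]
    · intro t
      apply rk_cols _ 1 3 (by decide)
      intro i j
      fin_cases i <;> fin_cases j <;> simp [bC, cst4, nat4, x1, π1, res]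
    · intro t i j
      fin_cases i <;> fin_cases j <;> simp [bC, cst4, nat4, x1, π1, res]
  · apply mem_tan_RR _ _ x1_det
    · intro t
      apply rk_cols _ 0 2 (by decide)
      intro i j
      fin_cases i <;> fin_cases j <;> simp [bA, cst4, x1, π1, res]
    · intro t
      apply rk_rows _ 0 1 (by decide)
      intro i j
      fin_cases i <;> fin_cases j <;> simp [bC, cst4, nat4, x1, π1, res]
    · intro t i j
      fin_cases i <;> fin_cases j <;> simp [bC, cst4, nat4, x1, π1, res]
  · apply mem_tan_RR _ _ x1_det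
    · intro t
      apply rk_cols _ 0 2 (by decide)
      intro i j
      fin_cases i <;> fin_cases j <;> simp [bA, cst4, x1, π1, res]
    · intro t
      apply rk_rows _ 0 1 (by decide)
      intro i j
      fin_cases i <;> fin_cases j <;> simp [bC, cst4, nat4, x1, π1, res]
    · intro t i j
      fin_cases i <;> fin_cases j <;> simp [bC, cst4, nat4, x1, π1, res]
  · apply mem_tan_RR _ _ x1_det
    · intro t
      apply rk_rows _ 0 1 (by decide)
      intro i j
      fin_cases i <;> fin_cases j <;> simp [bA, cst4, x1, π1, res]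
    · intro t
      apply rk_cols _ 1 3 (by decide)
      intro i j
      fin_cases i <;> fin_cases j <;> simp [bC, cst4, nat4, x1, π1, res]
    · intro t i j
      fin_cases i <;> fin_cases j <;> simp [bC, cst4, nat4, x1, π1, res]
  · apply mem_tan_RR _ _ x1_det
    · intro t
      apply rk_cols _ 0 2 (by decide)
      intro i j
      fin_cases i <;> fin_cases j <;> simp [bA, cst4, x1, π1, res]
    · intro t
      apply rk_cols _ 1 3 (by decide)
      intro i j
      fin_cases i <;> fin_cases j <;> simp [bC, cst4, nat4, x1, π1, res]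
    · intro t i j
      fin_cases i <;> fin_cases j <;> simp [bC, cst4, nat4, x1, π1, res]

theorem ker_φ2_le : LinearMap.ker φ2 ≤ tan RR x2 := by
  intro v hv
  rw [LinearMap.mem_ker] at hv
  have h1 : v 2 2 = 0 := congrFun hv 0
  have h2 : v 3 2 = 0 := congrFun hv 1
  have h3 : v 2 3 = 0 := congrFun hv 2
  have h4 : v 3 3 = 0 := congrFun hv 3
  have h5 : v 6 0 = 0 := congrFun hv 4
  have h6 : v 5 0 = 0 := congrFun hv 5
  have h7' : v 6 1 - v 6 2 = 0 := congrFun hv 6
  have h7 : v 6 1 = v 6 2 := sub_eq_zero.1 h7'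
  have hsum : v = res (fun _ s => decide (4 ≤ s)) v +
      res (fun r s => decide ((s = 0 ∨ s = 1) ∧ r < 4)) v +
      res (fun r s => decide (s = 0 ∧ r = 4)) v +
      res (fun r s => decide ((s = 1 ∨ s = 2) ∧ (r = 4 ∨ r = 5))) v +
      res (fun r s => decide ((s = 2 ∨ s = 3) ∧ r < 2)) v +
      res (fun r s => decide ((s = 3 ∧ 4 ≤ r) ∨ ((s = 1 ∨ s = 2) ∧ r = 6))) v := by
    ext r s
    fin_cases r <;> fin_cases s <;> simp [res, h1, h2, h3, h4, h5, h6, h7]
  rw [hsum]
  refine Submodule.add_mem _ (Submodule.add_mem _ (Submodule.add_mem _ (Submodule.add_mem _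
    (Submodule.add_mem _ ?_ ?_) ?_) ?_) ?_) ?_
  · apply mem_tan_RR _ _ x2_det
    · intro t
      apply rk_cols _ 0 1 (by decide)
      intro i j
      fin_cases i <;> fin_cases j <;> simp [bA, cst4, x2, π0, res]
    · intro t
      apply rk_rows _ 0 1 (by decide)
      intro i j
      fin_cases i <;> fin_cases j <;> simp [bC, cst4, nat4, x2, π0, res]
    · intro t i j
      fin_cases i <;> fin_cases j <;> simp [bC, cst4, nat4, x2, π0, res]
  · apply mem_tan_RR _ _ x2_det
    · intro t
      apply rk_cols _ 0 1 (by decide)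
      intro i j
      fin_cases i <;> fin_cases j <;> simp [bA, cst4, x2, π0, res]
    · intro t
      apply rk_rows _ 0 1 (by decide)
      intro i j
      fin_cases i <;> fin_cases j <;> simp [bC, cst4, nat4, x2, π0, res]
    · intro t i j
      fin_cases i <;> fin_cases j <;> simp [bC, cst4, nat4, x2, π0, res]
  · apply mem_tan_RR _ _ x2_det
    · intro t
      apply rk_cols _ 0 1 (by decide)
      intro i j
      fin_cases i <;> fin_cases j <;> simp [bA, cst4, x2, π0, res]
    · intro t
      apply rk_rows _ 0 1 (by decide)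
      intro i j
      fin_cases i <;> fin_cases j <;> simp [bC, cst4, nat4, x2, π0, res]
    · intro t i j
      fin_cases i <;> fin_cases j <;> simp [bC, cst4, nat4, x2, π0, res]
  · apply mem_tan_RR _ _ x2_det
    · intro t
      apply rk_cols _ 0 1 (by decide)
      intro i j
      fin_cases i <;> fin_cases j <;> simp [bA, cst4, x2, π0, res]
    · intro t
      apply rk_rows _ 0 1 (by decide)
      intro i j
      fin_cases i <;> fin_cases j <;> simp [bC, cst4, nat4, x2, π0, res]
    · intro t i j
      fin_cases i <;> fin_cases j <;> simp [bC, cst4, nat4, x2, π0, res]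
  · apply mem_tan_RR _ _ x2_det
    · intro t
      apply rk_rows _ 0 1 (by decide)
      intro i j
      fin_cases i <;> fin_cases j <;> simp [bA, cst4, x2, π0, res]
    · intro t
      apply rk_rows _ 0 1 (by decide)
      intro i j
      fin_cases i <;> fin_cases j <;> simp [bC, cst4, nat4, x2, π0, res]
    · intro t i j
      fin_cases i <;> fin_cases j <;> simp [bC, cst4, nat4, x2, π0, res]
  · apply mem_tan_RR _ _ x2_det
    · intro t
      apply rk_cols _ 0 1 (by decide)
      intro i j
      fin_cases i <;> fin_cases j <;> simp [bA, cst4, x2, π0, res]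
    · intro t
      apply rk_fact _ (fun i => bC (x2 + t • res (fun r s => decide ((s = 3 ∧ 4 ≤ r) ∨
        ((s = 1 ∨ s = 2) ∧ r = 6))) v) i 1) (fun i => bC (x2 + t • res (fun r s =>
        decide ((s = 3 ∧ 4 ≤ r) ∨ ((s = 1 ∨ s = 2) ∧ r = 6))) v) i 3) ![0, 1, 1, 0] ![0, 0, 0, 1]
      intro i j
      fin_cases i <;> fin_cases j <;> simp [bC, cst4, nat4, x2, π0, res, h7]
    · intro t i j
      fin_cases i <;> fin_cases j <;> simp [bC, cst4, nat4, x2, π0, res]

end Pool.Agent.Q35.CL
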