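import Mathlib
import Pool.Agent.Q35.CL.Low
import Pool.Agent.Q35.CL.Irr

set_option autoImplicit false

/-! The singular locus of the orbit closure of `1 + - 1 2 + 2`. -/

namespace Pool.Agent.Q35.CL

open Matrix

theorem inv_block (b : Fin (4 + 3) → ℕ) (m : Mat 4 3) (hm : m.det ≠ 0)
    (h : m.BlockTriangular b) : (m⁻¹).BlockTriangular b := by
  have : Invertible m := invertibleOfIsUnitDet m (isUnit_iff_ne_zero.2 hm)
  exact blockTriangular_inv_of_blockTriangular h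

theorem inv_det (m : Mat 4 3) (hm : m.det ≠ 0) : (m⁻¹).det ≠ 0 := by
  exact (isUnit_nonsing_inv_det m (isUnit_iff_ne_zero.2 hm)).ne_zero

theorem K_inv (k : Mat 4 3) (hk : k ∈ K 4 3) : k⁻¹ ∈ K 4 3 := by
  have h1 := inv_block (fun i => if i.val < 4 then 0 else 1) k hk.1 (by
    intro i j hij
    apply hk.2
    intro h
    by_cases h1 : i.val < 4
    · simp [h1] at hij
    · have h2 : ¬ j.val < 4 := fun h2 => h1 (h.2 h2)
      simp [h1, h2] at hij)
  have h2 := inv_block (fun i => if i.val < 4 then 1 else 0) k hk.1 (by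
    intro i j hij
    apply hk.2
    intro h
    by_cases h1 : i.val < 4
    · have h2 : j.val < 4 := h.1 h1
      simp [h1, h2] at hij
    · simp [h1] at hij)
  refine ⟨inv_det k hk.1, ?_⟩
  intro i j hij
  by_cases hi : i.val < 4
  · by_cases hj : j.val < 4
    · exact absurd ⟨fun _ => hj, fun _ => hi⟩ hij
    · exact h2 (by simp [hi, hj])
  · by_cases hj : j.val < 4
    · exact h1 (by simp [hi, hj])
    · exact absurd ⟨fun h => absurd h hi, fun h => absurd h hj⟩ hij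

theorem QQ_inv (m : Mat 4 3) (hm : m ∈ QQ) : m⁻¹ ∈ QQ := by
  have h1 := inv_block (fun i => if i.val < 2 then 0 else if i.val < 4 then 1 else 2) m hm.1 (by
    intro i j hij
    apply hm.2
    simp only at hij
    split_ifs at hij <;> omega)
  refine ⟨inv_det m hm.1, ?_⟩
  intro r s hrs
  apply h1
  simp only
  split_ifs <;> omega

theorem finrank_KQ (x k m : Mat 4 3) (hk : k ∈ K 4 3) (hm : m ∈ QQ) :
    Module.finrank ℂ (tan RR (k * x * m)) = Module.finrank ℂ (tan RR x) := by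
  apply le_antisymm
  · have h := finrank_tan_le RR k⁻¹ m⁻¹ (K_inv k hk).1 (QQ_inv m hm).1
      (fun y hy => RR_KQ _ y _ (K_inv k hk) (QQ_inv m hm) hy) (k * x * m)
    have e : k⁻¹ * (k * x * m) * m⁻¹ = x := by
      have hk' : IsUnit k.det := isUnit_iff_ne_zero.2 hk.1
      have hm' : IsUnit m.det := isUnit_iff_ne_zero.2 hm.1
      simp [mul_assoc, nonsing_inv_mul_cancel_left _ _ hk', mul_nonsing_inv _ hm']
    rwa [e] at h
  · exact finrank_tan_le RR k m hk.1 hm.1 (fun y hy => RR_KQ _ y _ hk hm hy) x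

theorem dim_x0 : 43 ≤ Module.finrank ℂ (tan RR x0) :=
  (ker_finrank φ0 43 rfl).trans (Submodule.finrank_mono ker_φ0_le)

theorem dim_x1 : Module.finrank ℂ (tan RR x1) = 42 := by
  have h : tan RR x1 = LinearMap.ker φ1 := le_antisymm tan_x1_le ker_φ1_le
  rw [h]
  exact ker_finrank_surj φ1 42 rfl φ1_surj

theorem dim_x2 : Module.finrank ℂ (tan RR x2) = 42 := by
  have h : tan RR x2 = LinearMap.ker φ2 := le_antisymm tan_x2_le ker_φ2_le
  rw [h]
  exact ker_finrank_surj φ2 42 rfl φ2_surj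

theorem x1_RR : x1 ∈ RR := Y_γ ▸ (clo_mono (OO_sub_orb base_γ)) x1_mem

theorem dim_RR0 (x : Mat 4 3) (hx : x ∈ RR0) : 43 ≤ Module.finrank ℂ (tan RR x) := by
  obtain ⟨k, hk, m, hm, rfl⟩ := cls0 x hx
  rw [finrank_KQ _ _ _ hk hm]
  exact dim_x0

theorem dim_not_RR0 (x : Mat 4 3) (hx : x ∈ RR) (hx0 : x ∉ RR0) :
    Module.finrank ℂ (tan RR x) = 42 := by
  obtain ⟨k, hk, m, hm, h | h⟩ := cls x hx hx0
  · rw [h, finrank_KQ _ _ _ hk hm, dim_x1]
  · rw [h, finrank_KQ _ _ _ hk hm, dim_x2]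

theorem Sing_RR : Sing RR = RR0 := by
  apply Set.Subset.antisymm
  · rintro x ⟨hx, y, hy, hlt⟩
    by_contra hx0
    rw [dim_not_RR0 x hx hx0] at hlt
    by_cases hy0 : y ∈ RR0
    · have := dim_RR0 y hy0
      omega
    · rw [dim_not_RR0 y hy hy0] at hlt
      omega
  · intro x hx
    refine ⟨RR0_sub_RR hx, x1, x1_RR, ?_⟩
    rw [dim_x1]
    exact dim_RR0 x hx

theorem Sing_γ : Sing (Y γ0) = Y α0 := by
  rw [Y_γ, Y_α, Sing_RR]

theorem component : IsComponent (Y α0) (Sing (Y γ0)) := by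
  rw [Sing_γ]
  refine ⟨?_, le_rfl, fun D _ h1 h2 => Set.Subset.antisymm h2 h1⟩
  rw [Y_α, ← cloOO_α]
  exact irred_OO gα gα_det

theorem irred_γ : IrredClosed (Y γ0) := by
  have h : clo (OO gγ) = RR :=
    Set.Subset.antisymm ((clo_mono (OO_sub_orb base_γ)).trans Y_sub_RR) RR_sub
  rw [Y_γ, ← h]
  exact irred_OO gγ gγ_det

end Pool.Agent.Q35.CL
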